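import Pool.Agent.W_MP_c01b7c_lc.Def
set_option linter.unusedSectionVars false

/-!
Basic arithmetic in models of Peano arithmetic.
-/

namespace Pool.Agent.W_MP_c01b7c_lc

universe u v w

/-- Models of Peano arithmetic (induction for all definable predicates, parameters allowed). -/
class PAModel (M : Type u) [Ops M] : Prop where
  succ_ne_zero : ∀ x : M, Ops.succ x ≠ Ops.zero
  succ_inj : ∀ x y : M, Ops.succ x = Ops.succ y → x = y
  add_zero : ∀ x : M, Ops.add x Ops.zero = x
  add_succ : ∀ x y : M, Ops.add x (Ops.succ y) = Ops.succ (Ops.add x y)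
  mul_zero : ∀ x : M, Ops.mul x Ops.zero = Ops.zero
  mul_succ : ∀ x y : M, Ops.mul x (Ops.succ y) = Ops.add (Ops.mul x y) x
  ind : ∀ P : (ℕ → M) → Prop, DP P → ∀ v, P (scons Ops.zero v) →
    (∀ x, P (scons x v) → P (scons (Ops.succ x) v)) → ∀ x, P (scons x v)

section
variable {M : Type u} [Ops M] [PAModel M]

theorem ind0 {P : M → Prop} (hP : DefMap M P) (h0 : P Ops.zero)
    (hS : ∀ x, P x → P (Ops.succ x)) (x : M) : P x := by
  have h := hP (fun v => v 0) (DT.df (DT.var 0))
  exact PAModel.ind (fun v => P (v 0)) h (fun _ => Ops.zero) h0 hS x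

namespace PAraw

attribute [local fun_prop] DefMap.osucc DefMap.oadd DefMap.omul

theorem zero_add (x : M) : Ops.add Ops.zero x = x := by
  refine ind0 (P := fun x => Ops.add Ops.zero x = x) (by fun_prop) ?_ ?_ x
  · exact PAModel.add_zero _
  · intro x ih
    rw [PAModel.add_succ, ih]

theorem succ_add (x y : M) : Ops.add (Ops.succ x) y = Ops.succ (Ops.add x y) := by
  refine ind0 (P := fun y => Ops.add (Ops.succ x) y = Ops.succ (Ops.add x y)) (by fun_prop) ?_ ?_ y
  · rw [PAModel.add_zero, PAModel.add_zero]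
  · intro y ih
    rw [PAModel.add_succ, ih, PAModel.add_succ]

theorem add_comm (x y : M) : Ops.add x y = Ops.add y x := by
  refine ind0 (P := fun y => Ops.add x y = Ops.add y x) (by fun_prop) ?_ ?_ y
  · rw [PAModel.add_zero, zero_add]
  · intro y ih
    rw [PAModel.add_succ, ih, succ_add]

theorem add_assoc (x y z : M) : Ops.add (Ops.add x y) z = Ops.add x (Ops.add y z) := by
  refine ind0 (P := fun z => Ops.add (Ops.add x y) z = Ops.add x (Ops.add y z))
    (by fun_prop) ?_ ?_ z
  · rw [PAModel.add_zero, PAModel.add_zero]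
  · intro z ih
    rw [PAModel.add_succ, ih, PAModel.add_succ, PAModel.add_succ]

theorem zero_mul (x : M) : Ops.mul Ops.zero x = Ops.zero := by
  refine ind0 (P := fun x => Ops.mul Ops.zero x = Ops.zero) (by fun_prop) ?_ ?_ x
  · exact PAModel.mul_zero _
  · intro x ih
    rw [PAModel.mul_succ, ih, PAModel.add_zero]

theorem succ_mul (x y : M) : Ops.mul (Ops.succ x) y = Ops.add (Ops.mul x y) y := by
  refine ind0 (P := fun y => Ops.mul (Ops.succ x) y = Ops.add (Ops.mul x y) y)
    (by fun_prop) ?_ ?_ y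
  · rw [PAModel.mul_zero, PAModel.mul_zero, PAModel.add_zero]
  · intro y ih
    rw [PAModel.mul_succ, ih, PAModel.mul_succ, PAModel.add_succ, PAModel.add_succ,
      add_assoc, add_assoc, add_comm x y]

theorem mul_comm (x y : M) : Ops.mul x y = Ops.mul y x := by
  refine ind0 (P := fun y => Ops.mul x y = Ops.mul y x) (by fun_prop) ?_ ?_ y
  · rw [PAModel.mul_zero, zero_mul]
  · intro y ih
    rw [PAModel.mul_succ, ih, succ_mul]

theorem mul_add (x y z : M) :
    Ops.mul x (Ops.add y z) = Ops.add (Ops.mul x y) (Ops.mul x z) := by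
  refine ind0 (P := fun z => Ops.mul x (Ops.add y z) = Ops.add (Ops.mul x y) (Ops.mul x z))
    (by fun_prop) ?_ ?_ z
  · rw [PAModel.add_zero, PAModel.mul_zero, PAModel.add_zero]
  · intro z ih
    rw [PAModel.add_succ, PAModel.mul_succ, ih, PAModel.mul_succ, add_assoc]

theorem mul_assoc (x y z : M) : Ops.mul (Ops.mul x y) z = Ops.mul x (Ops.mul y z) := by
  refine ind0 (P := fun z => Ops.mul (Ops.mul x y) z = Ops.mul x (Ops.mul y z))
    (by fun_prop) ?_ ?_ z
  · rw [PAModel.mul_zero, PAModel.mul_zero, PAModel.mul_zero]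
  · intro z ih
    rw [PAModel.mul_succ, ih, PAModel.mul_succ, mul_add]

theorem mul_one (x : M) : Ops.mul x (Ops.succ Ops.zero) = x := by
  rw [PAModel.mul_succ, PAModel.mul_zero, zero_add]

theorem succ_eq (x : M) : Ops.succ x = Ops.add x (Ops.succ Ops.zero) := by
  rw [PAModel.add_succ, PAModel.add_zero]

end PAraw

instance instZero : Zero M := ⟨Ops.zero⟩
instance instOne : One M := ⟨Ops.succ Ops.zero⟩
instance instAdd : Add M := ⟨Ops.add⟩
instance instMul : Mul M := ⟨Ops.mul⟩

noncomputable instance instCommSemiring : CommSemiring M where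
  add_assoc := PAraw.add_assoc
  zero_add := PAraw.zero_add
  add_zero := PAModel.add_zero
  add_comm := PAraw.add_comm
  nsmul := nsmulRec
  left_distrib := PAraw.mul_add
  right_distrib x y z := by
    change Ops.mul (Ops.add x y) z = Ops.add (Ops.mul x z) (Ops.mul y z)
    rw [PAraw.mul_comm, PAraw.mul_add, PAraw.mul_comm z x, PAraw.mul_comm z y]
  zero_mul := PAraw.zero_mul
  mul_zero := PAModel.mul_zero
  mul_assoc := PAraw.mul_assoc
  one_mul x := by
    change Ops.mul (Ops.succ Ops.zero) x = x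
    rw [PAraw.mul_comm, PAraw.mul_one]
  mul_one := PAraw.mul_one
  mul_comm := PAraw.mul_comm
  npow := npowRec

theorem zero_def : (0 : M) = Ops.zero := rfl
theorem one_def : (1 : M) = Ops.succ Ops.zero := rfl
theorem add_def (x y : M) : x + y = Ops.add x y := rfl
theorem mul_def (x y : M) : x * y = Ops.mul x y := rfl
theorem succ_def (x : M) : Ops.succ x = x + 1 := PAraw.succ_eq x

variable {X : Type v} [Obj M X]

@[fun_prop] theorem DefMap.add {f g : X → M} (hf : DefMap M f) (hg : DefMap M g) :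
    DefMap M (fun x => f x + g x) := DefMap.oadd hf hg

@[fun_prop] theorem DefMap.mul {f g : X → M} (hf : DefMap M f) (hg : DefMap M g) :
    DefMap M (fun x => f x * g x) := DefMap.omul hf hg

theorem induct {P : M → Prop} (hP : DefMap M P) (h0 : P 0)
    (hS : ∀ x, P x → P (x + 1)) (x : M) : P x :=
  ind0 hP h0 (fun x hx => by rw [succ_def]; exact hS x hx) x

theorem add_one_ne_zero' (x : M) : x + 1 ≠ 0 := by
  rw [← succ_def]
  exact PAModel.succ_ne_zero x

theorem add_one_inj' {x y : M} (h : x + 1 = y + 1) : x = y := by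
  rw [← succ_def, ← succ_def] at h
  exact PAModel.succ_inj x y h

theorem zero_or_succ (x : M) : x = 0 ∨ ∃ y, x = y + 1 := by
  refine induct (P := fun x : M => x = 0 ∨ ∃ y, x = y + 1) (by fun_prop) (Or.inl rfl) ?_ x
  intro x _
  exact Or.inr ⟨x, rfl⟩

theorem add_right_cancel'' {x y z : M} (h : x + z = y + z) : x = y := by
  revert h
  refine induct (P := fun z => x + z = y + z → x = y) (by fun_prop) ?_ ?_ z
  · intro h; simpa using h
  · intro z ih h
    apply ih
    apply add_one_inj'
    rw [add_assoc, add_assoc]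
    exact h

theorem eq_zero_of_add {x y : M} (h : x + y = 0) : x = 0 := by
  rcases zero_or_succ y with rfl | ⟨z, rfl⟩
  · simpa using h
  · rw [← add_assoc] at h
    exact (add_one_ne_zero' _ h).elim

instance instLE : LE M := ⟨fun x y => ∃ z, x + z = y⟩

theorem le_def' (x y : M) : x ≤ y ↔ ∃ z, x + z = y := Iff.rfl

theorem le_total' (x y : M) : x ≤ y ∨ y ≤ x := by
  refine induct (P := fun x => (∃ z, x + z = y) ∨ (∃ z, y + z = x)) (by fun_prop) ?_ ?_ x
  · exact Or.inl ⟨y, zero_add y⟩
  · rintro x (⟨z, hz⟩ | ⟨z, hz⟩)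
    · rcases zero_or_succ z with rfl | ⟨w, rfl⟩
      · right
        exact ⟨1, by rw [← hz]; ring⟩
      · left
        exact ⟨w, by rw [← hz]; ring⟩
    · right
      exact ⟨z + 1, by rw [← hz]; ring⟩

noncomputable instance instLinearOrder : LinearOrder M where
  le_refl x := ⟨0, add_zero x⟩
  le_trans := by
    rintro x y z ⟨a, rfl⟩ ⟨b, rfl⟩
    exact ⟨a + b, by ring⟩
  le_antisymm := by
    rintro x y ⟨a, rfl⟩ ⟨b, hb⟩
    have h : a + b = 0 := by
      apply add_right_cancel'' (z := x)
      rw [zero_add]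
      calc a + b + x = x + a + b := by ring
        _ = x := hb
    have := eq_zero_of_add h
    rw [this, add_zero]
  le_total := le_total'
  toDecidableLE := Classical.decRel _

theorem add_pos_iff_ne (x : M) : x ≠ 0 → 0 < x := by
  intro h
  rw [lt_iff_le_not_ge]
  refine ⟨⟨x, zero_add x⟩, ?_⟩
  rintro ⟨z, hz⟩
  exact h (eq_zero_of_add hz)

instance instIsOrderedCancelAddMonoid : IsOrderedCancelAddMonoid M where
  add_le_add_left := by
    rintro a b ⟨c, rfl⟩ d
    exact ⟨c, by ring⟩
  le_of_add_le_add_left := by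
    rintro a b c ⟨d, hd⟩
    refine ⟨d, ?_⟩
    apply add_right_cancel'' (z := a)
    calc b + d + a = a + b + d := by ring
      _ = a + c := hd
      _ = c + a := by ring

theorem mul_ne_zero' {x y : M} (hx : x ≠ 0) (hy : y ≠ 0) : x * y ≠ 0 := by
  rcases zero_or_succ x with rfl | ⟨a, rfl⟩
  · exact (hx rfl).elim
  · rcases zero_or_succ y with rfl | ⟨b, rfl⟩
    · exact (hy rfl).elim
    · have : (a + 1) * (b + 1) = (a * b + a + b) + 1 := by ring
      rw [this]
      exact add_one_ne_zero' _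

instance instCanonicallyOrderedAdd : CanonicallyOrderedAdd M where
  exists_add_of_le := by
    rintro a b ⟨c, rfl⟩
    exact ⟨c, rfl⟩
  le_add_self a b := ⟨b, by ring⟩
  le_self_add a b := ⟨b, rfl⟩

theorem lt_def' (x y : M) : x < y ↔ ∃ z, x + 1 + z = y := by
  constructor
  · intro h
    obtain ⟨z, rfl⟩ := h.le
    rcases zero_or_succ z with rfl | ⟨w, rfl⟩
    · rw [add_zero] at h
      exact (lt_irrefl _ h).elim
    · exact ⟨w, by ring⟩
  · rintro ⟨z, rfl⟩
    rw [lt_iff_le_not_ge]
    refine ⟨⟨1 + z, by ring⟩, ?_⟩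
    rintro ⟨w, hw⟩
    have : 1 + (z + w) = 0 := by
      apply add_right_cancel'' (z := x)
      rw [zero_add]
      calc 1 + (z + w) + x = x + 1 + z + w := by ring
        _ = x := hw
    rw [add_comm] at this
    exact add_one_ne_zero' _ this

theorem lt_iff_add_one_le' (x y : M) : x < y ↔ x + 1 ≤ y := lt_def' x y

instance instIsStrictOrderedRing : IsStrictOrderedRing M where
  zero_le_one := ⟨1, zero_add 1⟩
  exists_pair_ne := ⟨0, 1, fun h => add_one_ne_zero' (0 : M) (by rw [zero_add]; exact h.symm)⟩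
  mul_lt_mul_of_pos_left := by
    intro a ha b c hbc
    obtain ⟨z, rfl⟩ := (lt_def' b c).mp hbc
    have ha' : a ≠ 0 := ha.ne'
    rcases zero_or_succ a with rfl | ⟨w, rfl⟩
    · exact (ha' rfl).elim
    · refine (lt_def' _ _).mpr ⟨w + z * (w + 1), by ring⟩
  mul_lt_mul_of_pos_right := by
    intro a ha b c hbc
    obtain ⟨z, rfl⟩ := (lt_def' b c).mp hbc
    have ha' : a ≠ 0 := ha.ne'
    rcases zero_or_succ a with rfl | ⟨w, rfl⟩
    · exact (ha' rfl).elim
    · refine (lt_def' _ _).mpr ⟨w + z * (w + 1), by ring⟩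

@[fun_prop] theorem DefMap.le {f g : X → M} (hf : DefMap M f) (hg : DefMap M g) :
    DefMap M (fun x => f x ≤ g x) := by
  have : DefMap M (fun x => ∃ z, f x + z = g x) := by fun_prop
  exact this

@[fun_prop] theorem DefMap.lt {f g : X → M} (hf : DefMap M f) (hg : DefMap M g) :
    DefMap M (fun x => f x < g x) := by
  have : DefMap M (fun x => ∃ z, f x + 1 + z = g x) := by fun_prop
  exact this.congr fun x => (lt_def' _ _).symm

@[fun_prop] theorem DefMap.dvd {f g : X → M} (hf : DefMap M f) (hg : DefMap M g) :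
    DefMap M (fun x => f x ∣ g x) := by
  have : DefMap M (fun x => ∃ z, g x = f x * z) := by fun_prop
  exact this

theorem lt_add_one_iff' (x y : M) : x < y + 1 ↔ x ≤ y := by
  rw [lt_iff_add_one_le']
  exact add_le_add_iff_right 1

theorem add_one_le_iff' (x y : M) : x + 1 ≤ y ↔ x < y := (lt_iff_add_one_le' x y).symm

theorem pos_iff (x : M) : 0 < x ↔ x ≠ 0 := ⟨fun h => h.ne', add_pos_iff_ne x⟩

theorem one_le_iff (x : M) : 1 ≤ x ↔ x ≠ 0 := by
  rw [← pos_iff, lt_iff_add_one_le', zero_add]

theorem not_lt_zero'' (x : M) : ¬ x < 0 := not_lt.mpr ⟨x, zero_add x⟩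

theorem zero_le'' (x : M) : 0 ≤ x := ⟨x, zero_add x⟩

/-- Strong induction. -/
theorem strong_induct {P : M → Prop} (hP : DefMap M P)
    (h : ∀ x, (∀ y, y < x → P y) → P x) (x : M) : P x := by
  have key : ∀ z : M, ∀ y, y < z → P y := by
    refine induct (by fun_prop) ?_ ?_
    · intro y hy
      exact (not_lt_zero'' y hy).elim
    · intro z ih y hy
      rw [lt_add_one_iff'] at hy
      rcases hy.lt_or_eq with hy | rfl
      · exact ih y hy
      · exact h y ih
  exact key (x + 1) x ((lt_add_one_iff' x x).mpr le_rfl)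

/-- The least number principle. -/
theorem least {P : M → Prop} (hP : DefMap M P) (h : ∃ x, P x) :
    ∃ x, P x ∧ ∀ y, y < x → ¬ P y := by
  by_contra hcon
  push Not at hcon
  have : ∀ x, ¬ P x := by
    refine strong_induct (by fun_prop) ?_
    intro x ih hx
    obtain ⟨y, hy, hy2⟩ := hcon x hx
    exact ih y hy hy2
  obtain ⟨x, hx⟩ := h
  exact this x hx

/-- Bounded sets have a greatest element. -/
theorem greatest {P : M → Prop} (hP : DefMap M P) (h : ∃ x, P x) (b : M) (hb : ∀ x, P x → x ≤ b) :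
    ∃ x, P x ∧ ∀ y, P y → y ≤ x := by
  obtain ⟨x, hx, hmin⟩ := least (P := fun x => ∀ y, P y → y ≤ x) (by fun_prop) ⟨b, hb⟩
  refine ⟨x, ?_, hx⟩
  by_contra hPx
  rcases zero_or_succ x with rfl | ⟨z, rfl⟩
  · obtain ⟨y, hy⟩ := h
    have := hx y hy
    have h0 : y = 0 := le_antisymm this (zero_le'' y)
    exact hPx (h0 ▸ hy)
  · apply hmin z ((lt_add_one_iff' z z).mpr le_rfl)
    intro y hy
    have h1 := hx y hy
    rcases h1.lt_or_eq with h2 | rfl
    · exact (lt_add_one_iff' y z).mp h2
    · exact (hPx hy).elim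

/-- Division with remainder. -/
theorem div_exists (a : M) {b : M} (hb : b ≠ 0) : ∃ q r, a = q * b + r ∧ r < b := by
  refine induct (P := fun a => ∃ q r, a = q * b + r ∧ r < b) (by fun_prop) ?_ ?_ a
  · exact ⟨0, 0, by ring, (pos_iff b).mpr hb⟩
  · rintro a ⟨q, r, rfl, hr⟩
    rw [lt_iff_add_one_le'] at hr
    rcases hr.lt_or_eq with hr | hr
    · exact ⟨q, r + 1, by ring, hr⟩
    · refine ⟨q + 1, 0, ?_, (pos_iff b).mpr hb⟩
      calc q * b + r + 1 = q * b + (r + 1) := by ring
        _ = (q + 1) * b + 0 := by rw [hr]; ring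

theorem div_unique {b q r q' r' : M} (hr : r < b) (hr' : r' < b)
    (h : q * b + r = q' * b + r') : q = q' ∧ r = r' := by
  have key : ∀ {q r q' r' : M}, r' < b → q * b + r = q' * b + r' → q ≤ q' := by
    intro q r q' r' hr' h
    by_contra hlt
    push Not at hlt
    obtain ⟨z, rfl⟩ := (lt_def' _ _).mp hlt
    have h1 : b + (z * b + r) = r' := by
      apply add_right_cancel'' (z := q' * b)
      calc b + (z * b + r) + q' * b = (q' + 1 + z) * b + r := by ring
        _ = q' * b + r' := h
        _ = r' + q' * b := by ring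
    have h2 : b ≤ r' := ⟨_, h1⟩
    exact (not_lt.mpr h2) hr'
  have h1 : q = q' := le_antisymm (key hr' h) (key hr h.symm)
  subst h1
  refine ⟨rfl, ?_⟩
  apply add_right_cancel'' (z := q * b)
  rw [add_comm r, add_comm r']
  exact h

end

end Pool.Agent.W_MP_c01b7c_lc
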