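import Pool.Agent.W_MP_c01b7c_lc.Arith
set_option linter.unusedSectionVars false

/-!
The beta function in models of Peano arithmetic: coding of definable sequences.
-/

namespace Pool.Agent.W_MP_c01b7c_lc

universe u v w

variable {M : Type u} [Ops M] [PAModel M] {X : Type v} [Obj M X]

theorem dvd_of_dvd_add {a x y : M} (h1 : a ∣ x) (h2 : a ∣ x + y) : a ∣ y := by
  obtain ⟨p, rfl⟩ := h1
  obtain ⟨q, hq⟩ := h2
  by_cases ha : a = 0
  · subst ha
    rw [zero_mul, zero_mul, zero_add] at hq
    rw [hq]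
  · have hpq : p ≤ q := by
      by_contra hlt
      push Not at hlt
      have h3 : a * q < a * p := mul_lt_mul_of_pos_left hlt ((pos_iff a).mpr ha)
      have h4 : a * p ≤ a * q := ⟨y, hq⟩
      exact (not_lt.mpr h4) h3
    obtain ⟨r, rfl⟩ := hpq
    refine ⟨r, ?_⟩
    apply add_right_cancel'' (z := a * p)
    calc y + a * p = a * p + y := by ring
      _ = a * (p + r) := hq
      _ = a * r + a * p := by ring

/-- Coprimality in the sense of the Euclid lemma. -/
def GC (a b : M) : Prop := ∀ c, a ∣ b * c → a ∣ c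

@[fun_prop] theorem DefMap.gc {f g : X → M} (hf : DefMap M f) (hg : DefMap M g) :
    DefMap M (fun x => GC (f x) (g x)) := by
  unfold GC
  fun_prop

theorem GC.mul {a b c : M} (h1 : GC a b) (h2 : GC a c) : GC a (b * c) := by
  intro x hx
  apply h2
  apply h1
  rw [← mul_assoc]
  exact hx

theorem GC.of_dvd {a b c : M} (h : GC a c) (hbc : b ∣ c) : GC a b := by
  obtain ⟨e, rfl⟩ := hbc
  intro x hx
  apply h
  have : b * e * x = b * x * e := by ring
  rw [this]
  exact hx.mul_right e

/-- The moduli. -/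
def modul (d i : M) : M := (i + 1) * d + 1

@[fun_prop] theorem DefMap.modul_ {f g : X → M} (hf : DefMap M f) (hg : DefMap M g) :
    DefMap M (fun x => modul (f x) (g x)) := by
  unfold modul
  fun_prop

theorem modul_pos (d i : M) : modul d i ≠ 0 := add_one_ne_zero' _

theorem gc_modul_d (d i : M) : GC (modul d i) d := by
  intro x hx
  have h1 : modul d i ∣ (i + 1) * (d * x) := hx.mul_left _
  apply dvd_of_dvd_add h1
  refine ⟨x, ?_⟩
  unfold modul
  ring

theorem gc_modul {d i j : M} (hij : i < j) (hd : ∀ k, k ≠ 0 → k ≤ j → k ∣ d) :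
    GC (modul d i) (modul d j) ∧ GC (modul d j) (modul d i) := by
  obtain ⟨z, rfl⟩ := (lt_def' _ _).mp hij
  have hδ : (z + 1) ∣ d := hd _ (add_one_ne_zero' z) ⟨i, by ring⟩
  have hm : modul d (i + 1 + z) = modul d i + (z + 1) * d := by
    unfold modul; ring
  have hi : GC (modul d i) ((z + 1) * d) :=
    ((gc_modul_d d i).of_dvd hδ).mul (gc_modul_d d i)
  have hj : GC (modul d (i + 1 + z)) ((z + 1) * d) :=
    ((gc_modul_d d _).of_dvd hδ).mul (gc_modul_d d _)
  constructor
  · intro x hx
    apply hi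
    rw [hm, add_mul] at hx
    exact dvd_of_dvd_add (Dvd.intro _ rfl) hx
  · intro x hx
    apply hj
    apply dvd_of_dvd_add hx
    refine ⟨x, ?_⟩
    rw [hm]
    ring

theorem bezout {m P : M} (hm : m ≠ 0) (hP : P ≠ 0) (h : GC m P) :
    ∃ u v, u * P = v * m + 1 := by
  obtain ⟨m', rfl⟩ : ∃ m', m = m' + 1 := (zero_or_succ m).resolve_left hm
  obtain ⟨P', hP'⟩ : ∃ P', P = P' + 1 := (zero_or_succ P).resolve_left hP
  obtain ⟨g, ⟨hg0, u, v, huv⟩, hmin⟩ := least
    (P := fun x : M => x ≠ 0 ∧ ∃ u v, u * P = v * (m' + 1) + x) (by fun_prop)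
    ⟨P, hP, 1, 0, by ring⟩
  have hgP : g ∣ P := by
    obtain ⟨q, r, hqr, hr⟩ := div_exists P hg0
    by_cases hr0 : r = 0
    · exact ⟨q, by rw [hqr, hr0]; ring⟩
    · exfalso
      refine hmin r hr ⟨hr0, ?_⟩
      -- w = q u P - q v
      have hle : q * v ≤ q * u * P := by
        refine ⟨q * v * m' + q * g, ?_⟩
        calc q * v + (q * v * m' + q * g) = q * (v * (m' + 1) + g) := by ring
          _ = q * (u * P) := by rw [huv]
          _ = q * u * P := by ring
      obtain ⟨w, hw⟩ := hle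
      refine ⟨1 + q * u * m', w, ?_⟩
      apply add_right_cancel'' (z := q * v * (m' + 1))
      have e1 : P + q * v * (m' + 1) = q * u * P + r := by
        calc P + q * v * (m' + 1) = (q * g + r) + q * v * (m' + 1) := by rw [← hqr]
          _ = q * (v * (m' + 1) + g) + r := by ring
          _ = q * (u * P) + r := by rw [huv]
          _ = q * u * P + r := by ring
      calc (1 + q * u * m') * P + q * v * (m' + 1)
          = (P + q * v * (m' + 1)) + (q * u * P) * m' := by ring
        _ = (q * u * P + r) + (q * u * P) * m' := by rw [e1]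
        _ = (q * u * P) * (m' + 1) + r := by ring
        _ = (q * v + w) * (m' + 1) + r := by rw [hw]
        _ = w * (m' + 1) + r + q * v * (m' + 1) := by ring
  have hgm : g ∣ m' + 1 := by
    obtain ⟨q, r, hqr, hr⟩ := div_exists (m' + 1) hg0
    by_cases hr0 : r = 0
    · exact ⟨q, by rw [hqr, hr0]; ring⟩
    · exfalso
      refine hmin r hr ⟨hr0, ?_⟩
      have hq : q ≠ 0 := by
        intro hq
        rw [hq, zero_mul, zero_add] at hqr
        refine hmin (m' + 1) (by rw [hqr]; exact hr) ⟨hm, m' + 1, P', ?_⟩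
        rw [hP']
        ring
      obtain ⟨q', hq'⟩ := (zero_or_succ q).resolve_left hq
      obtain ⟨g', hg'⟩ := (zero_or_succ g).resolve_left hg0
      have hle : 1 + q * v ≤ q * u * P := by
        refine ⟨q * v * m' + q' * g' + q' + g', ?_⟩
        calc 1 + q * v + (q * v * m' + q' * g' + q' + g')
            = q * v * (m' + 1) + (q' + 1) * (g' + 1) := by ring
          _ = q * v * (m' + 1) + q * g := by rw [← hq', ← hg']
          _ = q * (v * (m' + 1) + g) := by ring
          _ = q * (u * P) := by rw [huv]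
          _ = q * u * P := by ring
      obtain ⟨w, hw⟩ := hle
      refine ⟨q * u * m', w, ?_⟩
      apply add_right_cancel'' (z := q * u * P)
      have e1 : r + q * u * P = (1 + q * v) * (m' + 1) := by
        calc r + q * u * P = r + q * (u * P) := by ring
          _ = r + q * (v * (m' + 1) + g) := by rw [huv]
          _ = (q * g + r) + q * v * (m' + 1) := by ring
          _ = (m' + 1) + q * v * (m' + 1) := by rw [← hqr]
          _ = (1 + q * v) * (m' + 1) := by ring
      calc q * u * m' * P + q * u * P = (q * u * P) * (m' + 1) := by ring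
        _ = (1 + q * v + w) * (m' + 1) := by rw [hw]
        _ = w * (m' + 1) + (1 + q * v) * (m' + 1) := by ring
        _ = w * (m' + 1) + (r + q * u * P) := by rw [e1]
        _ = w * (m' + 1) + r + q * u * P := by ring
  obtain ⟨P1, hP1⟩ := hgP
  obtain ⟨m1, hm1⟩ := hgm
  have h1 : m' + 1 ∣ m1 := by
    apply h
    refine ⟨P1, ?_⟩
    rw [hP1, hm1]
    ring
  obtain ⟨k, hk⟩ := h1
  have hm1' : m1 ≠ 0 := by
    rintro rfl
    rw [mul_zero] at hm1
    exact hm hm1
  have hgk : g * k = 1 := by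
    have e : g * k * m1 = 1 * m1 := by
      calc g * k * m1 = (g * m1) * k := by ring
        _ = (m' + 1) * k := by rw [← hm1]
        _ = m1 := hk.symm
        _ = 1 * m1 := by ring
    by_contra hne
    rcases lt_or_gt_of_ne hne with hlt | hlt
    · have := mul_lt_mul_of_pos_right hlt ((pos_iff m1).mpr hm1')
      exact this.ne e
    · have := mul_lt_mul_of_pos_right hlt ((pos_iff m1).mpr hm1')
      exact this.ne e.symm
  have hg1 : g = 1 := by
    obtain ⟨g', hg'⟩ := (zero_or_succ g).resolve_left hg0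
    have hk0 : k ≠ 0 := by
      rintro rfl
      rw [mul_zero] at hgk
      exact add_one_ne_zero' (0 : M) (by rw [zero_add]; exact hgk.symm)
    obtain ⟨k', hk'⟩ := (zero_or_succ k).resolve_left hk0
    rw [hg', hk'] at hgk
    have : (g' + (g' * k' + k')) + 1 = 0 + 1 := by
      calc (g' + (g' * k' + k')) + 1 = (g' + 1) * (k' + 1) := by ring
        _ = 1 := hgk
        _ = 0 + 1 := by ring
    have := eq_zero_of_add (add_one_inj' this)
    rw [hg', this, zero_add]
  rw [hg1] at huv
  exact ⟨u, v, huv⟩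

theorem crt_step {m P : M} (hm : m ≠ 0) (hP : P ≠ 0) (h : GC m P) (c r : M) :
    ∃ t q, c + t * P = q * m + r := by
  obtain ⟨u, v, huv⟩ := bezout hm hP h
  obtain ⟨q0, r0, hc, hr0⟩ := div_exists c hm
  obtain ⟨s, hs⟩ := hr0.le
  refine ⟨(r + s) * u, q0 + (r + s) * v + 1, ?_⟩
  calc c + (r + s) * u * P = q0 * m + r0 + (r + s) * (u * P) := by rw [hc]; ring
    _ = q0 * m + r0 + (r + s) * (v * m + 1) := by rw [huv]
    _ = (q0 + (r + s) * v) * m + (r0 + s) + r := by ring
    _ = (q0 + (r + s) * v) * m + m + r := by rw [hs]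
    _ = (q0 + (r + s) * v + 1) * m + r := by ring

/-- `y` is the remainder of `c` modulo `(i + 1) * d + 1`. -/
def Beta (c d i y : M) : Prop := y < (i + 1) * d + 1 ∧ ∃ q, c = q * ((i + 1) * d + 1) + y

@[fun_prop] theorem DefMap.beta {f g h k : X → M} (hf : DefMap M f) (hg : DefMap M g)
    (hh : DefMap M h) (hk : DefMap M k) :
    DefMap M (fun x => Beta (f x) (g x) (h x) (k x)) := by
  unfold Beta
  fun_prop

theorem beta_exists (c d i : M) : ∃ y, Beta c d i y := by
  obtain ⟨q, r, h1, h2⟩ := div_exists c (modul_pos d i)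
  exact ⟨r, h2, q, h1⟩

theorem beta_unique {c d i y y' : M} (h : Beta c d i y) (h' : Beta c d i y') : y = y' := by
  obtain ⟨h1, q, h2⟩ := h
  obtain ⟨h1', q', h2'⟩ := h'
  exact (div_unique h1 h1' (h2.symm.trans h2')).2

theorem exists_multiple (n : M) : ∃ d : M, d ≠ 0 ∧ ∀ k, k ≠ 0 → k ≤ n → k ∣ d := by
  refine induct (P := fun n : M => ∃ d : M, d ≠ 0 ∧ ∀ k, k ≠ 0 → k ≤ n → k ∣ d)
    (by fun_prop) ?_ ?_ n
  · refine ⟨1, ?_, ?_⟩
    · rw [← zero_add (1 : M)]; exact add_one_ne_zero' 0
    · intro k hk hk0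
      exact (hk (le_antisymm hk0 (zero_le'' k))).elim
  · rintro n ⟨d, hd0, hd⟩
    refine ⟨d * (n + 1), mul_ne_zero' hd0 (add_one_ne_zero' n), ?_⟩
    intro k hk0 hk
    rcases hk.lt_or_eq with h | rfl
    · exact (hd k hk0 ((lt_add_one_iff' k n).mp h)).mul_right _
    · exact Dvd.intro_left _ rfl

theorem exists_bound {F : M → M} (hF : DefMap M F) (n : M) : ∃ b, ∀ i, i < n → F i < b := by
  refine induct (P := fun n : M => ∃ b, ∀ i, i < n → F i < b) (by fun_prop) ?_ ?_ n
  · exact ⟨0, fun i hi => (not_lt_zero'' i hi).elim⟩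
  · rintro n ⟨b, hb⟩
    refine ⟨b + (F n + 1), ?_⟩
    intro i hi
    rw [lt_add_one_iff'] at hi
    rcases hi.lt_or_eq with hi | rfl
    · exact lt_of_lt_of_le (hb i hi) ⟨_, rfl⟩
    · exact lt_of_lt_of_le ((lt_add_one_iff' _ _).mpr le_rfl) ⟨b, by ring⟩

/-- Every definable sequence is coded by the beta function. -/
theorem beta_seq {F : M → M} (hF : DefMap M F) (N : M) : ∃ c d, ∀ i, i < N → Beta c d i (F i) := by
  obtain ⟨b, hb⟩ := exists_bound hF N
  obtain ⟨d0, hd0, hd⟩ := exists_multiple N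
  set d := d0 * (b + 1) with hddef
  have hd' : ∀ k, k ≠ 0 → k ≤ N → k ∣ d := fun k hk hkN => (hd k hk hkN).mul_right _
  have hFd : ∀ i, i < N → F i < modul d i := by
    intro i hi
    refine lt_of_lt_of_le (hb i hi) ?_
    obtain ⟨e, he⟩ := (zero_or_succ d0).resolve_left hd0
    refine ⟨i * (e + 1) * (b + 1) + (e * (b + 1)) + 1 + 1, ?_⟩
    unfold modul
    rw [hddef, he]
    ring
  have key : ∀ n, n ≤ N → ∃ c P, P ≠ 0 ∧ (∀ i, i < n → Beta c d i (F i)) ∧
      (∀ i, i < n → modul d i ∣ P) ∧ (∀ j, n ≤ j → j < N → GC (modul d j) P) := by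
    refine induct (by fun_prop) ?_ ?_
    · intro _
      refine ⟨0, 1, ?_, ?_, ?_, ?_⟩
      · rw [← zero_add (1 : M)]; exact add_one_ne_zero' 0
      · intro i hi; exact (not_lt_zero'' i hi).elim
      · intro i hi; exact (not_lt_zero'' i hi).elim
      · intro j _ _ x hx
        simpa using hx
    · intro n ih hn
      have hnN : n < N := (add_one_le_iff' n N).mp hn
      obtain ⟨c, P, hP0, h1, h2, h3⟩ := ih hnN.le
      obtain ⟨t, q, htq⟩ := crt_step (modul_pos d n) hP0 (h3 n le_rfl hnN) c (F n)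
      refine ⟨c + t * P, P * modul d n, mul_ne_zero' hP0 (modul_pos d n), ?_, ?_, ?_⟩
      · intro i hi
        rw [lt_add_one_iff'] at hi
        rcases hi.lt_or_eq with hi | rfl
        · obtain ⟨hlt, q', hq'⟩ := h1 i hi
          obtain ⟨e, he⟩ := h2 i hi
          refine ⟨hlt, q' + t * e, ?_⟩
          rw [hq', he]
          unfold modul
          ring
        · exact ⟨hFd i hnN, q, htq⟩
      · intro i hi
        rw [lt_add_one_iff'] at hi
        rcases hi.lt_or_eq with hi | rfl
        · exact (h2 i hi).mul_right _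
        · exact Dvd.intro_left _ rfl
      · intro j hnj hjN
        have hnj' : n < j := (add_one_le_iff' n j).mp hnj
        refine (h3 j hnj'.le hjN).mul ?_
        exact (gc_modul hnj' (fun k hk hkj => hd' k hk (hkj.trans hjN.le))).2
  obtain ⟨c, P, -, h1, -, -⟩ := key N le_rfl
  exact ⟨c, d, h1⟩

end Pool.Agent.W_MP_c01b7c_lc
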