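import Pool.Agent.W_MP_c01b7c_lc.Provable
set_option linter.unusedSectionVars false

/-!
In the standard model the arithmetical formula defines the Paris-Harrington relation.
-/

namespace Pool.Agent.W_MP_c01b7c_lc.Peano

open Tm Fm

/-- A copy of the natural numbers carrying the arithmetical operations. -/
def NN : Type := ℕ

/-- The identity map to the natural numbers. -/
def toN (x : NN) : ℕ := x

/-- The identity map from the natural numbers. -/
def ofN (x : ℕ) : NN := x

theorem toN_ofN (x : ℕ) : toN (ofN x) = x := rfl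
theorem ofN_toN (x : NN) : ofN (toN x) = x := rfl

instance instOpsNN : Ops NN where
  zero := ofN 0
  succ x := ofN (toN x + 1)
  add x y := ofN (toN x + toN y)
  mul x y := ofN (toN x * toN y)

instance instPAModelNN : PAModel NN where
  succ_ne_zero x := Nat.succ_ne_zero x
  succ_inj _ _ h := Nat.succ.inj h
  add_zero x := Nat.add_zero x
  add_succ x y := Nat.add_succ x y
  mul_zero x := Nat.mul_zero x
  mul_succ x y := Nat.mul_succ x y
  ind _ _ _ h0 hS x := Nat.rec h0 (fun n ih => hS n ih) x

theorem toN_zero : toN (0 : NN) = 0 := rfl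
theorem toN_add_one (x : NN) : toN (x + 1) = toN x + 1 := rfl
theorem toN_add (x y : NN) : toN (x + y) = toN x + toN y := rfl

theorem nn_induct {P : NN → Prop} (h0 : P 0) (hS : ∀ x, P x → P (x + 1)) (x : NN) : P x :=
  Nat.rec (motive := fun n : ℕ => P (ofN n)) h0 (fun n ih => hS (ofN n) ih) (toN x)

theorem nn_le (x y : NN) : x ≤ y ↔ toN x ≤ toN y := by
  constructor
  · rintro ⟨z, hz⟩
    have h : toN x + toN z = toN y := hz
    omega
  · intro h
    exact ⟨ofN (toN y - toN x), Nat.add_sub_of_le h⟩

theorem nn_lt (x y : NN) : x < y ↔ toN x < toN y := by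
  rw [lt_iff_add_one_le', nn_le, toN_add_one]
  exact Iff.rfl

/-- Every finite set of natural numbers is coded. -/
theorem nn_comprehension (P : NN → Prop) (n : NN) :
    ∃ s : NN, ∀ x, mem x s ↔ x < n ∧ P x := by
  have key : ∃ s : NN, s < ex2 n ∧ ∀ x, mem x s ↔ x < n ∧ P x := by
    refine nn_induct (P := fun n => ∃ s : NN, s < ex2 n ∧ ∀ x, mem x s ↔ x < n ∧ P x) ?_ ?_ n
    · refine ⟨0, ex2_pos 0, fun x => ⟨fun h => (not_mem_zero x h).elim,
        fun h => (not_lt_zero'' x h.1).elim⟩⟩
    · rintro n ⟨s, hs, h⟩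
      by_cases hn : P n
      · refine ⟨s + ex2 n, ?_, ?_⟩
        · rw [ex2_succ]; gcongr
        · intro x
          rw [mem_add_top hs, h, lt_add_one_iff', le_iff_lt_or_eq]
          constructor
          · rintro (rfl | ⟨h1, h2⟩)
            · exact ⟨Or.inr rfl, hn⟩
            · exact ⟨Or.inl h1, h2⟩
          · rintro ⟨h1 | rfl, h2⟩
            · exact Or.inr ⟨h1, h2⟩
            · exact Or.inl rfl
      · refine ⟨s, ?_, ?_⟩
        · rw [ex2_succ]
          exact hs.trans (lt_add_of_pos_right _ (ex2_pos n))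
        · intro x
          rw [h, lt_add_one_iff', le_iff_lt_or_eq]
          constructor
          · rintro ⟨h1, h2⟩
            exact ⟨Or.inl h1, h2⟩
          · rintro ⟨h1 | rfl, h2⟩
            · exact ⟨h1, h2⟩
            · exact (hn h2).elim
  obtain ⟨s, -, hs⟩ := key
  exact ⟨s, hs⟩

open Classical in
/-- The finite set coded by a number. -/
noncomputable def bits (s : NN) : Finset ℕ :=
  (Finset.range (toN s)).filter (fun x => mem (ofN x) s)

theorem mem_bits (s : NN) (x : ℕ) : x ∈ bits s ↔ mem (ofN x) s := by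
  classical
  unfold bits
  rw [Finset.mem_filter, Finset.mem_range]
  exact ⟨fun h => h.2, fun h => ⟨(nn_lt _ _).mp (mem_lt h), h⟩⟩

theorem mem_bits' (s x : NN) : mem x s ↔ toN x ∈ bits s := by
  rw [mem_bits, ofN_toN]

theorem bits_inj {s t : NN} (h : bits s = bits t) : s = t :=
  set_ext fun x => by rw [mem_bits', mem_bits', h]

theorem bits_surj (S : Finset ℕ) : ∃ s : NN, bits s = S := by
  obtain ⟨s, hs⟩ := nn_comprehension (fun x => toN x ∈ S) (ofN (S.sup id + 1))
  refine ⟨s, Finset.ext fun x => ?_⟩
  rw [mem_bits, hs, nn_lt, toN_ofN, toN_ofN]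
  constructor
  · exact fun h => h.2
  · intro h
    exact ⟨Nat.lt_succ_of_le (Finset.le_sup (f := id) h), h⟩

theorem card_bits : ∀ (S : Finset ℕ) (s : NN), bits s = S → toN (card s) = S.card := by
  intro S
  induction S using Finset.induction_on with
  | empty =>
    intro s hs
    have : s = 0 := by
      rw [eq_zero_iff]
      intro x hx
      rw [mem_bits', hs] at hx
      exact absurd hx (Finset.notMem_empty _)
    rw [this, card_zero, Finset.card_empty, toN_zero]
  | insert a S ha ih =>
    intro s hs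
    have has : mem (ofN a) s := by rw [← mem_bits, hs]; exact Finset.mem_insert_self _ _
    have h1 : bits (era (ofN a) s) = S := by
      ext x
      rw [mem_bits, mem_era, ← mem_bits s, hs, Finset.mem_insert]
      constructor
      · rintro ⟨h1, h2 | h2⟩
        · exact (h1 (congrArg ofN h2)).elim
        · exact h2
      · intro hx
        exact ⟨fun e => ha (by rw [← toN_ofN a, ← e, toN_ofN]; exact hx), Or.inr hx⟩
    have h2 := ih _ h1
    have h3 := card_era has
    rw [← h3, toN_add_one, h2, Finset.card_insert_of_notMem ha]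

theorem cardR_bits (s k : NN) : CardR s k ↔ (bits s).card = toN k := by
  rw [cardR_iff, ← card_bits _ s rfl]
  exact ⟨fun h => (congrArg toN h).symm, fun h => (congrArg ofN h).symm⟩

theorem sub_bits (s t : NN) : Sub s t ↔ bits s ⊆ bits t := by
  constructor
  · intro h x hx
    rw [mem_bits] at hx ⊢
    exact h _ hx
  · intro h x hx
    rw [mem_bits'] at hx ⊢
    exact h hx

theorem ph_iff_arrow (e n : ℕ) : PH (ofN e) (ofN n) ↔ Arrow n (e + 1) e 2 := by
  classical
  constructor
  · intro h F
    obtain ⟨f, hf⟩ := nn_comprehension (fun X => F (bits X) = 1) (ex2 (ofN n))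
    obtain ⟨H, h1, h2, k, h3, h4, m, h5, h6, h7⟩ := h f
    have hHn : ∀ x ∈ bits H, x < n := fun x hx => by
      rw [mem_bits] at hx
      exact (nn_lt _ _).mp (h1 _ hx)
    rw [cardR_bits] at h3
    have hXlt : ∀ X : NN, Sub X H → X < ex2 (ofN n) := fun X hX =>
      lt_ex2_of_bounded fun x hx => h1 x (hX x hx)
    refine ⟨bits H, hHn, ?_, ?_, ?_⟩
    · rcases h2 with h2 | h2
      · refine ⟨1, fun X hX hXe => ?_⟩
        obtain ⟨x, rfl⟩ := bits_surj X
        exact ((hf x).mp (h2 x ((sub_bits _ _).mpr hX) ((cardR_bits _ _).mpr hXe))).2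
      · refine ⟨0, fun X hX hXe => ?_⟩
        obtain ⟨x, rfl⟩ := bits_surj X
        have h8 : ¬ F (bits x) = 1 := fun h9 =>
          h2 x ((sub_bits _ _).mpr hX) ((cardR_bits _ _).mpr hXe)
            ((hf x).mpr ⟨hXlt x ((sub_bits _ _).mpr hX), h9⟩)
        revert h8
        generalize F (bits x) = y
        revert y
        decide
    · rw [h3]
      exact (nn_le _ _).mp h4
    · intro m' _ hmin
      rw [h3]
      have h8 : m' ≤ toN m := hmin _ ((mem_bits' _ _).mp h5)
      exact h8.trans ((nn_le _ _).mp h7)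
  · intro h f
    obtain ⟨H, h1, ⟨i, h2⟩, h3, h4⟩ := h (fun X => if ∃ x : NN, bits x = X ∧ mem x f then 1 else 0)
    obtain ⟨H, rfl⟩ := bits_surj H
    have hcol : ∀ X : NN, (∃ x : NN, bits x = bits X ∧ mem x f) ↔ mem X f := fun X =>
      ⟨fun ⟨x, hx, hxf⟩ => bits_inj hx ▸ hxf, fun h => ⟨X, rfl, h⟩⟩
    have hne : H ≠ 0 := by
      rintro rfl
      have : (bits (0 : NN)).card = 0 := (cardR_bits _ _).mp (cardR_zero_iff.mpr rfl)
      omega
    obtain ⟨m, hm, hmin⟩ := exists_min hne
    refine ⟨H, fun x hx => (nn_lt _ _).mpr (h1 _ ((mem_bits' _ _).mp hx)), ?_,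
      ofN (bits H).card, (cardR_bits _ _).mpr rfl, (nn_le _ _).mpr h3, m, hm, hmin,
      (nn_le _ _).mpr (h4 _ ((mem_bits' _ _).mp hm) fun x hx =>
        (nn_le _ _).mp (hmin (ofN x) ((mem_bits _ _).mp hx)))⟩
    have h5 : ∀ X : NN, Sub X H → CardR X (ofN e) → (if mem X f then (1 : Fin 2) else 0) = i := by
      intro X hX hXe
      have := h2 (bits X) ((sub_bits _ _).mp hX) ((cardR_bits _ _).mp hXe)
      rwa [if_congr (hcol X) rfl rfl] at this
    by_cases hi : i = 1
    · left
      intro X hX hXe
      by_contra hmem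
      have := h5 X hX hXe
      rw [if_neg hmem, hi] at this
      exact absurd this (by decide)
    · right
      intro X hX hXe hmem
      have := h5 X hX hXe
      rw [if_pos hmem] at this
      exact hi this.symm

/-! ### Truth in the natural numbers is satisfaction in the structure `NN` -/

theorem eval_nn (v : ℕ → NN) (t : Tm) : toN (eval v t) = val (fun i => toN (v i)) t := by
  induction t with
  | var i => rfl
  | zero => rfl
  | succ t ih => exact congrArg (fun x => x + 1) ih
  | add s t ih1 ih2 => exact congrArg₂ (fun x y => x + y) ih1 ih2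
  | mul s t ih1 ih2 => exact congrArg₂ (fun x y => x * y) ih1 ih2

theorem sat_nn (φ : Fm) : ∀ v : ℕ → NN, Sat v φ ↔ Holds (fun i => toN (v i)) φ := by
  induction φ with
  | eq s t =>
    intro v
    simp only [Sat, Holds, ← eval_nn]
    exact ⟨fun h => congrArg toN h, fun h => congrArg ofN h⟩
  | fls => intro v; exact Iff.rfl
  | imp φ ψ ih1 ih2 => intro v; simp only [Sat, Holds, ih1, ih2]
  | all φ ih =>
    intro v
    simp only [Sat, Holds, ih]
    have e : ∀ x : NN, (fun i => toN (scons x v i)) = cons (toN x) (fun i => toN (v i)) := by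
      intro x
      funext i
      cases i <;> rfl
    constructor
    · intro h x
      have h1 := h (ofN x)
      rw [e] at h1
      exact h1
    · intro h x
      rw [e]
      exact h _

/-- The formula `fPH` defines the Paris-Harrington relation in the natural numbers. -/
theorem holds_ph (e n : ℕ) (v : ℕ → ℕ) :
    Holds (cons e (cons n v)) (fPH (var 0) (var 1)) ↔ Arrow n (e + 1) e 2 := by
  rw [← ph_iff_arrow]
  have h := sat_nn (fPH (var 0) (var 1)) (fun i => ofN (cons e (cons n v) i))
  rw [sat_ph] at h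
  exact h.symm

end Pool.Agent.W_MP_c01b7c_lc.Peano
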