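import Mathlib

/-!
Definable sets and functions (with parameters) over a structure for the language
`0, S, +, *`, together with closure properties that the `fun_prop` automation can use.
-/

namespace Pool.Agent.W_MP_c01b7c_lc

universe u v w

/-- Operations of the language of arithmetic. -/
class Ops (M : Type u) where
  zero : M
  succ : M → M
  add : M → M → M
  mul : M → M → M

/-- Prepend a value to an assignment. -/
def scons {M : Type u} (x : M) (v : ℕ → M) : ℕ → M
  | 0 => x
  | n + 1 => v n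

@[simp] theorem scons_zero {M : Type u} (x : M) (v : ℕ → M) : scons x v 0 = x := rfl
@[simp] theorem scons_succ {M : Type u} (x : M) (v : ℕ → M) (n : ℕ) :
    scons x v (n + 1) = v n := rfl

/-- Term functions. -/
inductive DT {M : Type u} [Ops M] : ((ℕ → M) → M) → Prop
  | var (i : ℕ) : DT (fun v => v i)
  | par (c : M) : DT (fun _ => c)
  | zero : DT (fun _ => Ops.zero)
  | succ {s : (ℕ → M) → M} : DT s → DT (fun v => Ops.succ (s v))
  | add {s t : (ℕ → M) → M} : DT s → DT t → DT (fun v => Ops.add (s v) (t v))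
  | mul {s t : (ℕ → M) → M} : DT s → DT t → DT (fun v => Ops.mul (s v) (t v))

/-- Definable predicates on assignments. -/
inductive DP {M : Type u} [Ops M] : ((ℕ → M) → Prop) → Prop
  | eq {s t : (ℕ → M) → M} : DT s → DT t → DP (fun v => s v = t v)
  | fls : DP (fun _ => False)
  | imp {P Q : (ℕ → M) → Prop} : DP P → DP Q → DP (fun v => P v → Q v)
  | all {P : (ℕ → M) → Prop} : DP P → DP (fun v => ∀ x, P (scons x v))

section
variable {M : Type u} [Ops M]

theorem DT.ren {t : (ℕ → M) → M} (h : DT t) (σ : ℕ → ℕ) : DT (fun v => t (fun i => v (σ i))) := by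
  induction h with
  | var i => exact DT.var (σ i)
  | par c => exact DT.par c
  | zero => exact DT.zero
  | succ _ ih => exact DT.succ ih
  | add _ _ ih1 ih2 => exact DT.add ih1 ih2
  | mul _ _ ih1 ih2 => exact DT.mul ih1 ih2

theorem DP.ren {P : (ℕ → M) → Prop} (h : DP P) :
    ∀ σ : ℕ → ℕ, DP (fun v => P (fun i => v (σ i))) := by
  induction h with
  | eq hs ht => intro σ; exact DP.eq (hs.ren σ) (ht.ren σ)
  | fls => intro σ; exact DP.fls
  | imp _ _ ih1 ih2 => intro σ; exact DP.imp (ih1 σ) (ih2 σ)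
  | @all P _ ih =>
    intro σ
    have := DP.all (ih (fun n => Nat.casesOn n 0 (fun k => σ k + 1)))
    refine (iff_of_eq (congrArg DP ?_)).mp this
    funext v
    refine propext (forall_congr' fun x => iff_of_eq (congrArg P ?_))
    funext i
    cases i <;> rfl

theorem DP.congr {P Q : (ℕ → M) → Prop} (h : DP P) (hPQ : ∀ v, P v ↔ Q v) : DP Q := by
  have : P = Q := funext fun v => propext (hPQ v)
  rwa [← this]

theorem DP.not {P : (ℕ → M) → Prop} (h : DP P) : DP (fun v => ¬ P v) := DP.imp h DP.fls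

theorem DP.or {P Q : (ℕ → M) → Prop} (h : DP P) (k : DP Q) : DP (fun v => P v ∨ Q v) :=
  (DP.imp h.not k).congr fun v => by tauto

theorem DP.and {P Q : (ℕ → M) → Prop} (h : DP P) (k : DP Q) : DP (fun v => P v ∧ Q v) :=
  (DP.imp h k.not).not.congr fun v => by tauto

theorem DP.iff {P Q : (ℕ → M) → Prop} (h : DP P) (k : DP Q) : DP (fun v => P v ↔ Q v) :=
  (DP.and (DP.imp h k) (DP.imp k h)).congr fun v => by tauto

theorem DP.ex {P : (ℕ → M) → Prop} (h : DP P) : DP (fun v => ∃ x, P (scons x v)) :=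
  (DP.all h.not).not.congr fun v => by simp

/-- Definable functions on assignments: those with definable graph. -/
def DF (f : (ℕ → M) → M) : Prop := DP (fun v => v 0 = f (fun i => v (i + 1)))

theorem DF.ren {f : (ℕ → M) → M} (h : DF f) (σ : ℕ → ℕ) : DF (fun v => f (fun i => v (σ i))) := by
  have := DP.ren h (fun n => Nat.casesOn n 0 (fun k => σ k + 1))
  exact this

theorem DT.df {t : (ℕ → M) → M} (h : DT t) : DF t := DP.eq (DT.var 0) (h.ren (fun i => i + 1))

theorem DF.subst₁ {R : M → Prop} (hR : DP (fun v => R (v 0))) {f : (ℕ → M) → M} (hf : DF f) :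
    DP (fun v => R (f v)) := by
  have h1 : DP (fun v : ℕ → M => v 0 = f (fun i => v (i + 1)) ∧ R (v 0)) := DP.and hf hR
  exact (DP.ex h1).congr fun v => by simp

theorem DF.subst₂ {R : M → M → Prop} (hR : DP (fun v => R (v 0) (v 1)))
    {f g : (ℕ → M) → M} (hf : DF f) (hg : DF g) : DP (fun v => R (f v) (g v)) := by
  -- assignment: 0 ↦ y, 1 ↦ x
  have h1 : DP (fun v : ℕ → M => v 0 = f (fun i => v (i + 2))) :=
    DP.ren hf (fun n => Nat.casesOn n 0 (fun k => k + 2))
  have h2 : DP (fun v : ℕ → M => v 1 = g (fun i => v (i + 2))) :=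
    DP.ren hg (fun n => Nat.casesOn n 1 (fun k => k + 2))
  have h3 := DP.ex (DP.ex (DP.and h1 (DP.and h2 hR)))
  refine h3.congr fun v => ?_
  constructor
  · rintro ⟨x, y, hx, hy, h⟩
    simp only [scons] at hx hy h
    rw [← hx, ← hy]
    exact h
  · intro h
    exact ⟨g v, f v, rfl, rfl, h⟩

theorem DF.subst₃ {R : M → M → M → Prop} (hR : DP (fun v => R (v 0) (v 1) (v 2)))
    {f g k : (ℕ → M) → M} (hf : DF f) (hg : DF g) (hk : DF k) :
    DP (fun v => R (f v) (g v) (k v)) := by
  have h1 : DP (fun v : ℕ → M => v 0 = f (fun i => v (i + 3))) :=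
    DP.ren hf (fun n => Nat.casesOn n 0 (fun k => k + 3))
  have h2 : DP (fun v : ℕ → M => v 1 = g (fun i => v (i + 3))) :=
    DP.ren hg (fun n => Nat.casesOn n 1 (fun k => k + 3))
  have h2' : DP (fun v : ℕ → M => v 2 = k (fun i => v (i + 3))) :=
    DP.ren hk (fun n => Nat.casesOn n 2 (fun k => k + 3))
  have h3 := DP.ex (DP.ex (DP.ex (DP.and h1 (DP.and h2 (DP.and h2' hR)))))
  refine h3.congr fun v => ?_
  constructor
  · rintro ⟨x, y, z, hx, hy, hz, h⟩
    simp only [scons] at hx hy hz h
    rw [← hx, ← hy, ← hz]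
    exact h
  · intro h
    exact ⟨k v, g v, f v, rfl, rfl, rfl, h⟩

end

/-- Types for which definability of maps makes sense, with respect to the structure `M`. -/
class Obj (M : Type u) [Ops M] (X : Type v) where
  plot : ((ℕ → M) → X) → Prop
  plot_ren : ∀ p, plot p → ∀ σ : ℕ → ℕ, plot (fun v => p (fun i => v (σ i)))
  plot_const : ∀ x : X, plot (fun _ => x)

instance instObjSelf (M : Type u) [Ops M] : Obj M M where
  plot := DF
  plot_ren _ hp σ := DF.ren hp σ
  plot_const c := DT.df (DT.par c)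

instance instObjProp (M : Type u) [Ops M] : Obj M Prop where
  plot := DP
  plot_ren _ hp σ := DP.ren hp σ
  plot_const c := by
    by_cases h : c
    · exact (DP.fls.not).congr fun v => by simp [h]
    · exact (DP.fls).congr fun v => by simp [h]

instance instObjProd (M : Type u) [Ops M] (X : Type v) (Y : Type w) [Obj M X] [Obj M Y] :
    Obj M (X × Y) where
  plot p := Obj.plot (fun v => (p v).1) ∧ Obj.plot (fun v => (p v).2)
  plot_ren p hp σ := ⟨Obj.plot_ren (fun v => (p v).1) hp.1 σ, Obj.plot_ren (fun v => (p v).2) hp.2 σ⟩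
  plot_const x := ⟨Obj.plot_const x.1, Obj.plot_const x.2⟩

/-- Definable maps. -/
@[fun_prop]
def DefMap (M : Type u) [Ops M] {X : Type v} {Y : Type w} [Obj M X] [Obj M Y]
    (f : X → Y) : Prop :=
  ∀ p : (ℕ → M) → X, Obj.plot p → Obj.plot (fun v => f (p v))

section
variable {M : Type u} [Ops M] {X : Type v} {Y : Type w} {Z : Type*} [Obj M X] [Obj M Y] [Obj M Z]

@[fun_prop] theorem DefMap.id : DefMap M (fun x : X => x) := fun _ hp => hp

@[fun_prop] theorem DefMap.const (c : Y) : DefMap M (fun _ : X => c) :=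
  fun _ _ => Obj.plot_const c

@[fun_prop] theorem DefMap.comp {f : Y → Z} {g : X → Y} (hf : DefMap M f) (hg : DefMap M g) :
    DefMap M (fun x => f (g x)) := fun p hp => hf _ (hg p hp)

@[fun_prop] theorem DefMap.fst {f : X → Y × Z} (hf : DefMap M f) : DefMap M (fun x => (f x).1) :=
  fun p hp => (hf p hp).1

@[fun_prop] theorem DefMap.snd {f : X → Y × Z} (hf : DefMap M f) : DefMap M (fun x => (f x).2) :=
  fun p hp => (hf p hp).2

@[fun_prop] theorem DefMap.mk {f : X → Y} {g : X → Z} (hf : DefMap M f) (hg : DefMap M g) :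
    DefMap M (fun x => (f x, g x)) := fun p hp => ⟨hf p hp, hg p hp⟩

@[fun_prop] theorem DefMap.and {f g : X → Prop} (hf : DefMap M f) (hg : DefMap M g) :
    DefMap M (fun x => f x ∧ g x) := fun p hp => DP.and (hf p hp) (hg p hp)

@[fun_prop] theorem DefMap.or {f g : X → Prop} (hf : DefMap M f) (hg : DefMap M g) :
    DefMap M (fun x => f x ∨ g x) := fun p hp => DP.or (hf p hp) (hg p hp)

@[fun_prop] theorem DefMap.not {f : X → Prop} (hf : DefMap M f) :
    DefMap M (fun x => ¬ f x) := fun p hp => DP.not (hf p hp)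

@[fun_prop] theorem DefMap.iff {f g : X → Prop} (hf : DefMap M f) (hg : DefMap M g) :
    DefMap M (fun x => f x ↔ g x) := fun p hp => DP.iff (hf p hp) (hg p hp)

@[fun_prop] theorem DefMap.imp {f g : X → Prop} (hf : DefMap M f) (hg : DefMap M g) :
    DefMap M (fun x => f x → g x) := fun p hp => DP.imp (hf p hp) (hg p hp)

theorem plot_push {p : (ℕ → M) → X} (hp : Obj.plot p) :
    Obj.plot (fun v => ((p (fun i => v (i + 1)), v 0) : X × M)) :=
  ⟨Obj.plot_ren p hp (fun i => i + 1), DT.df (DT.var 0)⟩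

@[fun_prop] theorem DefMap.all {f : X → M → Prop} (hf : DefMap M (fun p : X × M => f p.1 p.2)) :
    DefMap M (fun x => ∀ y, f x y) :=
  fun _ hp => DP.all (hf _ (plot_push hp))

@[fun_prop] theorem DefMap.ex {f : X → M → Prop} (hf : DefMap M (fun p : X × M => f p.1 p.2)) :
    DefMap M (fun x => ∃ y, f x y) :=
  fun _ hp => DP.ex (hf _ (plot_push hp))

/-- A map with definable graph is definable. -/
theorem DefMap.of_graph {f : X → M} (hf : DefMap M (fun p : X × M => p.2 = f p.1)) :
    DefMap M f :=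
  fun _ hp => hf _ (plot_push hp)

@[fun_prop] theorem DefMap.eq {f g : X → M} (hf : DefMap M f) (hg : DefMap M g) :
    DefMap M (fun x => f x = g x) := fun p hp =>
  DF.subst₂ (R := fun x y => x = y) (DP.eq (DT.var 0) (DT.var 1)) (hf p hp) (hg p hp)

@[fun_prop] theorem DefMap.ne {f g : X → M} (hf : DefMap M f) (hg : DefMap M g) :
    DefMap M (fun x => f x ≠ g x) := DefMap.not (DefMap.eq hf hg)

theorem DefMap.osucc {f : X → M} (hf : DefMap M f) : DefMap M (fun x => Ops.succ (f x)) :=
  fun p hp => (DF.subst₂ (R := fun x y => x = Ops.succ y)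
    (DP.eq (DT.var 0) (DT.succ (DT.var 1))) (DT.df (DT.var 0))
    (DF.ren (hf p hp) (fun i => i + 1)))

theorem DefMap.oadd {f g : X → M} (hf : DefMap M f) (hg : DefMap M g) :
    DefMap M (fun x => Ops.add (f x) (g x)) :=
  fun p hp => (DF.subst₃ (R := fun x y z => x = Ops.add y z)
    (DP.eq (DT.var 0) (DT.add (DT.var 1) (DT.var 2))) (DT.df (DT.var 0))
    (DF.ren (hf p hp) (fun i => i + 1)) (DF.ren (hg p hp) (fun i => i + 1)))

theorem DefMap.omul {f g : X → M} (hf : DefMap M f) (hg : DefMap M g) :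
    DefMap M (fun x => Ops.mul (f x) (g x)) :=
  fun p hp => (DF.subst₃ (R := fun x y z => x = Ops.mul y z)
    (DP.eq (DT.var 0) (DT.mul (DT.var 1) (DT.var 2))) (DT.df (DT.var 0))
    (DF.ren (hf p hp) (fun i => i + 1)) (DF.ren (hg p hp) (fun i => i + 1)))

theorem DefMap.congr {f g : X → Prop} (hf : DefMap M f) (h : ∀ x, f x ↔ g x) : DefMap M g := by
  have : f = g := funext fun x => propext (h x)
  rwa [← this]

end

end Pool.Agent.W_MP_c01b7c_lc
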