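import Pool.Agent.W_MP_c01b7c_lc.Peano
import Pool.Agent.W_MP_c01b7c_lc.Def

/-!
Substitution, soundness and completeness for the natural deduction calculus.
-/

namespace Pool.Agent.W_MP_c01b7c_lc.Peano

open Tm Fm

universe u

deriving instance Countable for Tm
deriving instance Countable for Fm

/-! ### Semantics -/

section
variable {M : Type u} [Ops M]

/-- The value of a term. -/
def eval (v : ℕ → M) : Tm → M
  | var i => v i
  | zero => Ops.zero
  | succ t => Ops.succ (eval v t)
  | add s t => Ops.add (eval v s) (eval v t)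
  | mul s t => Ops.mul (eval v s) (eval v t)

/-- Satisfaction. -/
def Sat : (ℕ → M) → Fm → Prop
  | v, eq s t => eval v s = eval v t
  | _, fls => False
  | v, imp φ ψ => Sat v φ → Sat v ψ
  | v, all φ => ∀ x : M, Sat (scons x v) φ

theorem eval_subst (v : ℕ → M) (σ : ℕ → Tm) (t : Tm) :
    eval v (t.subst σ) = eval (fun i => eval v (σ i)) t := by
  induction t with
  | var i => rfl
  | zero => rfl
  | succ t ih => simp only [Tm.subst, eval, ih]
  | add s t ih1 ih2 => simp only [Tm.subst, eval, ih1, ih2]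
  | mul s t ih1 ih2 => simp only [Tm.subst, eval, ih1, ih2]

theorem eval_up (v : ℕ → M) (x : M) (t : Tm) : eval (scons x v) (up t) = eval v t := by
  unfold up
  rw [eval_subst]
  rfl

theorem sat_subst (φ : Fm) : ∀ (v : ℕ → M) (σ : ℕ → Tm),
    Sat v (φ.subst σ) ↔ Sat (fun i => eval v (σ i)) φ := by
  induction φ with
  | eq s t => intro v σ; simp only [Fm.subst, Sat, eval_subst]
  | fls => intro v σ; exact Iff.rfl
  | imp φ ψ ih1 ih2 => intro v σ; simp only [Fm.subst, Sat, ih1, ih2]
  | all φ ih =>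
    intro v σ
    simp only [Fm.subst, Sat, ih]
    refine forall_congr' fun x => iff_of_eq (congrArg (fun w => Sat w φ) ?_)
    funext i
    cases i with
    | zero => rfl
    | succ i => exact eval_up v x (σ i)

theorem sat_inst (φ : Fm) (v : ℕ → M) (t : Tm) :
    Sat v (φ.inst t) ↔ Sat (scons (eval v t) v) φ := by
  unfold Fm.inst
  rw [sat_subst]
  refine iff_of_eq (congrArg (fun w => Sat w φ) ?_)
  funext i
  cases i <;> rfl

theorem sat_lift (φ : Fm) (v : ℕ → M) (x : M) : Sat (scons x v) φ.lift ↔ Sat v φ := by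
  unfold Fm.lift
  rw [sat_subst]
  rfl

/-- Soundness of the calculus (a sanity check, not used below). -/
theorem soundness {T : Set Fm} {Γ : List Fm} {φ : Fm} (h : Derives T Γ φ)
    (hT : ∀ ψ ∈ T, ∀ v : ℕ → M, Sat v ψ) : ∀ v : ℕ → M, (∀ γ ∈ Γ, Sat v γ) → Sat v φ := by
  induction h with
  | axm h => intro v _; exact hT _ h v
  | hyp h => intro v hv; exact hv _ h
  | impI _ ih =>
    intro v hv hφ
    exact ih v (by
      intro γ hγ
      rcases List.mem_cons.mp hγ with rfl | hγ
      · exact hφ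
      · exact hv γ hγ)
  | impE _ _ ih1 ih2 => intro v hv; exact ih1 v hv (ih2 v hv)
  | raa _ ih =>
    intro v hv
    by_contra hφ
    exact ih v (by
      intro γ hγ
      rcases List.mem_cons.mp hγ with rfl | hγ
      · exact hφ
      · exact hv γ hγ)
  | allI _ ih =>
    intro v hv x
    apply ih
    intro γ hγ
    obtain ⟨δ, hδ, rfl⟩ := List.mem_map.mp hγ
    exact (sat_lift δ v x).mpr (hv δ hδ)
  | allE t _ ih =>
    intro v hv
    rw [sat_inst]
    exact ih v hv _
  | eqI t => intro v _; rfl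
  | eqE φ _ _ ih1 ih2 =>
    intro v hv
    rw [sat_inst]
    have h1 : eval v _ = eval v _ := ih1 v hv
    rw [← h1]
    exact (sat_inst _ _ _).mp (ih2 v hv)

end

/-! ### Substitution lemmas -/

/-- Substitution under a quantifier. -/
def lft (σ : ℕ → Tm) : ℕ → Tm := cons (var 0) fun i => up (σ i)

theorem tm_subst_subst (σ τ : ℕ → Tm) (t : Tm) :
    (t.subst σ).subst τ = t.subst fun i => (σ i).subst τ := by
  induction t with
  | var i => rfl
  | zero => rfl
  | succ t ih => simp only [Tm.subst, ih]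
  | add s t ih1 ih2 => simp only [Tm.subst, ih1, ih2]
  | mul s t ih1 ih2 => simp only [Tm.subst, ih1, ih2]

theorem tm_subst_var (t : Tm) : t.subst var = t := by
  induction t with
  | var i => rfl
  | zero => rfl
  | succ t ih => simp only [Tm.subst, ih]
  | add s t ih1 ih2 => simp only [Tm.subst, ih1, ih2]
  | mul s t ih1 ih2 => simp only [Tm.subst, ih1, ih2]

theorem up_subst_lft (t : Tm) (τ : ℕ → Tm) : (up t).subst (lft τ) = up (t.subst τ) := by
  unfold up
  rw [tm_subst_subst, tm_subst_subst]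
  rfl

theorem up_subst_cons (t : Tm) (s : Tm) (τ : ℕ → Tm) :
    (up t).subst (cons s τ) = t.subst τ := by
  unfold up
  rw [tm_subst_subst]
  rfl

theorem fm_subst_subst (φ : Fm) : ∀ σ τ : ℕ → Tm,
    (φ.subst σ).subst τ = φ.subst fun i => (σ i).subst τ := by
  induction φ with
  | eq s t => intro σ τ; simp only [Fm.subst, tm_subst_subst]
  | fls => intro σ τ; rfl
  | imp φ ψ ih1 ih2 => intro σ τ; simp only [Fm.subst, ih1, ih2]
  | all φ ih =>
    intro σ τ
    simp only [Fm.subst, ih]
    congr 2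
    funext i
    cases i with
    | zero => rfl
    | succ i => exact up_subst_lft (σ i) τ

theorem fm_subst_var (φ : Fm) : φ.subst var = φ := by
  induction φ with
  | eq s t => simp only [Fm.subst, tm_subst_var]
  | fls => rfl
  | imp φ ψ ih1 ih2 => simp only [Fm.subst, ih1, ih2]
  | all φ ih =>
    simp only [Fm.subst]
    have : (cons (var 0) fun i => up (var i)) = var := by
      funext i
      cases i <;> rfl
    rw [this, ih]

theorem lift_subst (φ : Fm) (τ : ℕ → Tm) : φ.lift.subst (lft τ) = (φ.subst τ).lift := by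
  unfold Fm.lift
  rw [fm_subst_subst, fm_subst_subst]
  rfl

theorem inst_subst (φ : Fm) (t : Tm) (τ : ℕ → Tm) :
    (φ.inst t).subst τ = (φ.subst (lft τ)).inst (t.subst τ) := by
  unfold Fm.inst
  rw [fm_subst_subst, fm_subst_subst]
  congr 1
  funext i
  cases i with
  | zero => rfl
  | succ i =>
    change (var i).subst τ = (up (τ i)).subst (cons (t.subst τ) var)
    rw [up_subst_cons, tm_subst_var]
    rfl

theorem subst_lft_inst (φ : Fm) (t : Tm) (σ : ℕ → Tm) :
    (φ.subst (lft σ)).inst t = φ.subst (cons t σ) := by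
  unfold Fm.inst
  rw [fm_subst_subst]
  congr 1
  funext i
  cases i with
  | zero => rfl
  | succ i =>
    change (up (σ i)).subst (cons t var) = σ i
    rw [up_subst_cons, tm_subst_var]

/-- A bound for the variables of a term. -/
def Tm.fb : Tm → ℕ
  | var i => i + 1
  | zero => 0
  | succ t => t.fb
  | add s t => max s.fb t.fb
  | mul s t => max s.fb t.fb

/-- A bound for the free variables of a formula. -/
def Fm.fb : Fm → ℕ
  | eq s t => max s.fb t.fb
  | fls => 0
  | imp φ ψ => max φ.fb ψ.fb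
  | all φ => φ.fb - 1

theorem tm_subst_congr (t : Tm) {σ τ : ℕ → Tm} (h : ∀ i, i < t.fb → σ i = τ i) :
    t.subst σ = t.subst τ := by
  induction t with
  | var i => exact h i (Nat.lt_succ_self i)
  | zero => rfl
  | succ t ih => simp only [Tm.subst]; rw [ih h]
  | add s t ih1 ih2 =>
    simp only [Tm.subst]
    rw [ih1 fun i hi => h i (lt_of_lt_of_le hi (le_max_left _ _)),
      ih2 fun i hi => h i (lt_of_lt_of_le hi (le_max_right _ _))]
  | mul s t ih1 ih2 =>
    simp only [Tm.subst]
    rw [ih1 fun i hi => h i (lt_of_lt_of_le hi (le_max_left _ _)),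
      ih2 fun i hi => h i (lt_of_lt_of_le hi (le_max_right _ _))]

theorem fm_subst_congr (φ : Fm) : ∀ {σ τ : ℕ → Tm}, (∀ i, i < φ.fb → σ i = τ i) →
    φ.subst σ = φ.subst τ := by
  induction φ with
  | eq s t =>
    intro σ τ h
    simp only [Fm.subst]
    rw [tm_subst_congr s fun i hi => h i (lt_of_lt_of_le hi (le_max_left _ _)),
      tm_subst_congr t fun i hi => h i (lt_of_lt_of_le hi (le_max_right _ _))]
  | fls => intro σ τ _; rfl
  | imp φ ψ ih1 ih2 =>
    intro σ τ h
    simp only [Fm.subst]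
    rw [ih1 fun i hi => h i (lt_of_lt_of_le hi (le_max_left _ _)),
      ih2 fun i hi => h i (lt_of_lt_of_le hi (le_max_right _ _))]
  | all φ ih =>
    intro σ τ h
    simp only [Fm.subst]
    rw [ih]
    intro i hi
    cases i with
    | zero => rfl
    | succ i =>
      change up (σ i) = up (τ i)
      rw [h i (by simp only [Fm.fb]; omega)]

/-! ### Structural properties of derivations -/

theorem Derives.weaken {T : Set Fm} {Γ : List Fm} {φ : Fm} (h : Derives T Γ φ) :
    ∀ Δ : List Fm, Γ ⊆ Δ → Derives T Δ φ := by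
  induction h with
  | axm h => intro Δ _; exact Derives.axm h
  | hyp h => intro Δ hΔ; exact Derives.hyp (hΔ h)
  | impI _ ih => intro Δ hΔ; exact Derives.impI (ih _ (List.cons_subset_cons _ hΔ))
  | impE _ _ ih1 ih2 => intro Δ hΔ; exact Derives.impE (ih1 _ hΔ) (ih2 _ hΔ)
  | raa _ ih => intro Δ hΔ; exact Derives.raa (ih _ (List.cons_subset_cons _ hΔ))
  | allI _ ih => intro Δ hΔ; exact Derives.allI (ih _ (List.map_subset _ hΔ))
  | allE t _ ih => intro Δ hΔ; exact Derives.allE t (ih _ hΔ)
  | eqI t => intro Δ _; exact Derives.eqI t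
  | eqE φ _ _ ih1 ih2 => intro Δ hΔ; exact Derives.eqE φ (ih1 _ hΔ) (ih2 _ hΔ)

theorem Derives.subst {T : Set Fm} (hT : ∀ φ ∈ T, ∀ τ, φ.subst τ ∈ T) {Γ : List Fm} {φ : Fm}
    (h : Derives T Γ φ) : ∀ τ : ℕ → Tm, Derives T (Γ.map fun γ => γ.subst τ) (φ.subst τ) := by
  induction h with
  | axm h => intro τ; exact Derives.axm (hT _ h τ)
  | hyp h => intro τ; exact Derives.hyp (List.mem_map_of_mem h)
  | impI _ ih => intro τ; exact Derives.impI (ih τ)
  | impE _ _ ih1 ih2 => intro τ; exact Derives.impE (ih1 τ) (ih2 τ)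
  | raa _ ih => intro τ; exact Derives.raa (ih τ)
  | @allI Γ φ _ ih =>
    intro τ
    apply Derives.allI
    have h1 := ih (lft τ)
    have h2 : (Γ.map Fm.lift).map (fun γ => γ.subst (lft τ)) =
        (Γ.map fun γ => γ.subst τ).map Fm.lift := by
      rw [List.map_map, List.map_map]
      refine List.map_congr_left fun γ _ => ?_
      exact lift_subst γ τ
    rw [h2] at h1
    exact h1
  | allE t _ ih =>
    intro τ
    rw [inst_subst]
    exact Derives.allE _ (ih τ)
  | eqI t => intro τ; exact Derives.eqI _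
  | eqE φ _ _ ih1 ih2 =>
    intro τ
    rw [inst_subst]
    refine Derives.eqE _ (ih1 τ) ?_
    rw [← inst_subst]
    exact ih2 τ

variable {T : Set Fm}

theorem Derives.exfalso {Γ : List Fm} {φ : Fm} (h : Derives T Γ fls) : Derives T Γ φ :=
  Derives.raa (h.weaken _ (List.subset_cons_self _ _))

theorem Derives.cut {Γ : List Fm} {φ ψ : Fm} (h1 : Derives T Γ φ) (h2 : Derives T [φ] ψ) :
    Derives T Γ ψ :=
  Derives.impE ((Derives.impI h2).weaken _ (List.nil_subset _)) h1

theorem Derives.cut2 {Γ : List Fm} {φ ψ χ : Fm} (h1 : Derives T Γ φ) (h1' : Derives T Γ χ)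
    (h2 : Derives T [φ, χ] ψ) : Derives T Γ ψ :=
  Derives.impE (Derives.impE ((Derives.impI (Derives.impI h2)).weaken _ (List.nil_subset _)) h1') h1

/-- Generalization on a fresh variable. -/
theorem fresh_gen (hT : ∀ φ ∈ T, ∀ τ, φ.subst τ ∈ T) {χ ψ : Fm} {k : ℕ} (h1 : χ.fb ≤ k)
    (h2 : (all ψ).fb ≤ k) (h : Derives T [χ] (ψ.inst (var k))) : Derives T [χ] (all ψ) := by
  apply Derives.allI
  let τ : ℕ → Tm := fun i => if i = k then var 0 else var (i + 1)
  have h3 := Derives.subst hT h τ
  have e1 : χ.subst τ = χ.lift := by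
    unfold Fm.lift
    apply fm_subst_congr
    intro i hi
    simp only [τ]
    rw [if_neg (by omega)]
  have e2 : (ψ.inst (var k)).subst τ = ψ := by
    conv_rhs => rw [← fm_subst_var ψ]
    unfold Fm.inst
    rw [fm_subst_subst]
    apply fm_subst_congr
    intro i hi
    cases i with
    | zero =>
      change (if k = k then var 0 else var (k + 1)) = var 0
      rw [if_pos rfl]
    | succ i =>
      change (if i = k then var 0 else var (i + 1)) = var (i + 1)
      rw [if_neg]
      simp only [Fm.fb] at h2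
      omega
  simp only [List.map_cons, List.map_nil] at h3 ⊢
  rw [e1, e2] at h3
  exact h3

/-! ### The Henkin construction -/

/-- The witness formula. -/
def wit (k : ℕ) : Fm → Fm
  | all ψ => ψ.inst (var k)
  | φ => φ

theorem derives_wit (k : ℕ) (φ : Fm) : Derives T [φ] (wit k φ) := by
  cases φ with
  | all ψ => exact Derives.allE _ (Derives.hyp (List.mem_singleton.mpr rfl))
  | eq s t => exact Derives.hyp (List.mem_singleton.mpr rfl)
  | fls => exact Derives.hyp (List.mem_singleton.mpr rfl)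
  | imp φ ψ => exact Derives.hyp (List.mem_singleton.mpr rfl)

theorem of_wit (hT : ∀ φ ∈ T, ∀ τ, φ.subst τ ∈ T) {χ φ : Fm} {k : ℕ} (h1 : χ.fb ≤ k)
    (h2 : φ.fb ≤ k) (h : Derives T [χ] (wit k φ)) : Derives T [χ] φ := by
  cases φ with
  | all ψ => exact fresh_gen hT h1 h2 h
  | eq s t => exact h
  | fls => exact h
  | imp φ ψ => exact h

instance : Inhabited Fm := ⟨fls⟩

/-- An enumeration of all formulas. -/
noncomputable def enum : ℕ → Fm := Classical.choose (exists_surjective_nat Fm)

theorem enum_surj : Function.Surjective enum := Classical.choose_spec (exists_surjective_nat Fm)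

open Classical in
/-- The sequence of stages. -/
noncomputable def stage (T : Set Fm) (φ₀ : Fm) : ℕ → Fm
  | 0 => neg φ₀
  | n + 1 =>
    if Derives T [stage T φ₀ n] (enum n) then stage T φ₀ n
    else neg (imp (stage T φ₀ n)
      (wit (max (stage T φ₀ n).fb (enum n).fb) (enum n)))

theorem neg_imp_left {φ ψ : Fm} : Derives T [neg (imp φ ψ)] φ := by
  apply Derives.raa
  apply Derives.impE (φ := imp φ ψ)
  · exact Derives.hyp (by simp [neg])
  · apply Derives.impI
    apply Derives.exfalso
    apply Derives.impE (φ := φ)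
    · exact Derives.hyp (by simp)
    · exact Derives.hyp (by simp)

theorem neg_imp_right {φ ψ : Fm} : Derives T [neg (imp φ ψ)] (neg ψ) := by
  apply Derives.impI
  apply Derives.impE (φ := imp φ ψ)
  · exact Derives.hyp (by simp [neg])
  · apply Derives.impI
    exact Derives.hyp (by simp)

section
variable {φ₀ : Fm}

theorem stage_step (n : ℕ) : Derives T [stage T φ₀ (n + 1)] (stage T φ₀ n) := by
  rw [stage]
  split_ifs
  · exact Derives.hyp (by simp)
  · exact neg_imp_left

theorem stage_mono {n m : ℕ} (h : n ≤ m) {φ : Fm} (hφ : Derives T [stage T φ₀ n] φ) :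
    Derives T [stage T φ₀ m] φ := by
  induction m, h using Nat.le_induction with
  | base => exact hφ
  | succ m _ ih => exact (stage_step m).cut ih

theorem stage_consistent (hT : ∀ φ ∈ T, ∀ τ, φ.subst τ ∈ T) (h0 : ¬ Derives T [] φ₀) (n : ℕ) :
    ¬ Derives T [stage T φ₀ n] fls := by
  induction n with
  | zero => exact fun h => h0 (Derives.raa h)
  | succ n ih =>
    rw [stage]
    split_ifs with hd
    · exact ih
    · intro h
      have h1 : Derives T [] (imp (stage T φ₀ n)
          (wit (max (stage T φ₀ n).fb (enum n).fb) (enum n))) := Derives.raa h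
      have h2 : Derives T [stage T φ₀ n]
          (wit (max (stage T φ₀ n).fb (enum n).fb) (enum n)) :=
        Derives.impE (h1.weaken _ (List.nil_subset _)) (Derives.hyp (by simp))
      exact hd (of_wit hT (le_max_left _ _) (le_max_right _ _) h2)

/-- The complete Henkin theory. -/
def Lim (T : Set Fm) (φ₀ : Fm) (φ : Fm) : Prop := ∃ n, Derives T [stage T φ₀ n] φ

theorem lim_mp {φ ψ : Fm} (h1 : Lim T φ₀ (imp φ ψ)) (h2 : Lim T φ₀ φ) : Lim T φ₀ ψ := by
  obtain ⟨n, hn⟩ := h1
  obtain ⟨m, hm⟩ := h2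
  exact ⟨max n m, Derives.impE (stage_mono (le_max_left _ _) hn) (stage_mono (le_max_right _ _) hm)⟩

theorem lim_of {φ : Fm} (h : Derives T [] φ) : Lim T φ₀ φ := ⟨0, h.weaken _ (List.nil_subset _)⟩

theorem lim_of1 {φ ψ : Fm} (h1 : Lim T φ₀ φ) (h : Derives T [φ] ψ) : Lim T φ₀ ψ := by
  obtain ⟨n, hn⟩ := h1
  exact ⟨n, hn.cut h⟩

theorem lim_of2 {φ χ ψ : Fm} (h1 : Lim T φ₀ φ) (h2 : Lim T φ₀ χ) (h : Derives T [φ, χ] ψ) :
    Lim T φ₀ ψ := by
  obtain ⟨n, hn⟩ := h1
  obtain ⟨m, hm⟩ := h2
  exact ⟨max n m, (stage_mono (le_max_left _ _) hn).cut2 (stage_mono (le_max_right _ _) hm) h⟩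

theorem lim_fls (hT : ∀ φ ∈ T, ∀ τ, φ.subst τ ∈ T) (h0 : ¬ Derives T [] φ₀) :
    ¬ Lim T φ₀ fls := fun ⟨n, hn⟩ => stage_consistent hT h0 n hn

theorem lim_dichotomy (φ : Fm) : Lim T φ₀ φ ∨ Lim T φ₀ (neg φ) := by
  obtain ⟨n, rfl⟩ := enum_surj φ
  by_cases hd : Derives T [stage T φ₀ n] (enum n)
  · exact Or.inl ⟨n, hd⟩
  · right
    refine ⟨n + 1, ?_⟩
    rw [stage, if_neg hd]
    apply Derives.impI
    apply Derives.impE (φ := wit (max (stage T φ₀ n).fb (enum n).fb) (enum n))
    · exact (neg_imp_right (T := T)).weaken _ (List.subset_cons_self _ _)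
    · exact (derives_wit _ _).weaken _ (by simp)

theorem lim_henkin (hT : ∀ φ ∈ T, ∀ τ, φ.subst τ ∈ T) (h0 : ¬ Derives T [] φ₀) {ψ : Fm}
    (h : ¬ Lim T φ₀ (all ψ)) : ∃ t, ¬ Lim T φ₀ (ψ.inst t) := by
  obtain ⟨n, hn⟩ := enum_surj (all ψ)
  have hd : ¬ Derives T [stage T φ₀ n] (enum n) := fun hd => h ⟨n, hn ▸ hd⟩
  refine ⟨var (max (stage T φ₀ n).fb (enum n).fb), fun hψ => lim_fls hT h0 ?_⟩
  refine lim_mp (φ := ψ.inst (var (max (stage T φ₀ n).fb (enum n).fb))) ⟨n + 1, ?_⟩ hψ
  rw [stage, if_neg hd]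
  have h1 : wit (max (stage T φ₀ n).fb (enum n).fb) (enum n) =
      ψ.inst (var (max (stage T φ₀ n).fb (enum n).fb)) := by
    rw [hn]
    rfl
  rw [h1]
  exact neg_imp_right

/-! ### The term model -/

theorem inst_up_left (s t : Tm) : (up s).subst (cons t var) = s := by
  rw [up_subst_cons, tm_subst_var]

theorem derives_symm {s t : Tm} : Derives T [eq s t] (eq t s) := by
  have h := Derives.eqE (T := T) (Γ := [eq s t]) (s := s) (t := t) (eq (var 0) (up s))
    (Derives.hyp (by simp)) (by
      simp only [Fm.inst, Fm.subst, inst_up_left]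
      exact Derives.eqI _)
  simp only [Fm.inst, Fm.subst, inst_up_left] at h
  exact h

theorem derives_trans {s t r : Tm} : Derives T [eq s t, eq t r] (eq s r) := by
  have h := Derives.eqE (T := T) (Γ := [eq s t, eq t r]) (s := t) (t := r) (eq (up s) (var 0))
    (Derives.hyp (by simp)) (by
      simp only [Fm.inst, Fm.subst, inst_up_left]
      exact Derives.hyp (by simp [Tm.subst, cons]))
  simp only [Fm.inst, Fm.subst, inst_up_left] at h
  exact h

theorem derives_succ {s t : Tm} : Derives T [eq s t] (eq (succ s) (succ t)) := by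
  have h := Derives.eqE (T := T) (Γ := [eq s t]) (s := s) (t := t)
    (eq (up (succ s)) (succ (var 0))) (Derives.hyp (by simp)) (by
      simp only [Fm.inst, Fm.subst, inst_up_left]
      exact Derives.eqI _)
  simp only [Fm.inst, Fm.subst, inst_up_left] at h
  exact h

theorem derives_add {s s' t t' : Tm} :
    Derives T [eq s s', eq t t'] (eq (add s t) (add s' t')) := by
  have h1 := Derives.eqE (T := T) (Γ := [eq s s', eq t t']) (s := s) (t := s')
    (eq (up (add s t)) (add (var 0) (up t))) (Derives.hyp (by simp)) (by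
      simp only [Fm.inst, Fm.subst, inst_up_left, Tm.subst]
      exact Derives.eqI _)
  simp only [Fm.inst, Fm.subst, inst_up_left, Tm.subst] at h1
  have h2 := Derives.eqE (T := T) (Γ := [eq s s', eq t t']) (s := t) (t := t')
    (eq (up (add s t)) (add (up s') (var 0))) (Derives.hyp (by simp)) (by
      simp only [Fm.inst, Fm.subst, inst_up_left, Tm.subst]
      exact h1)
  simp only [Fm.inst, Fm.subst, inst_up_left, Tm.subst] at h2
  exact h2

theorem derives_mul {s s' t t' : Tm} :
    Derives T [eq s s', eq t t'] (eq (mul s t) (mul s' t')) := by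
  have h1 := Derives.eqE (T := T) (Γ := [eq s s', eq t t']) (s := s) (t := s')
    (eq (up (mul s t)) (mul (var 0) (up t))) (Derives.hyp (by simp)) (by
      simp only [Fm.inst, Fm.subst, inst_up_left, Tm.subst]
      exact Derives.eqI _)
  simp only [Fm.inst, Fm.subst, inst_up_left, Tm.subst] at h1
  have h2 := Derives.eqE (T := T) (Γ := [eq s s', eq t t']) (s := t) (t := t')
    (eq (up (mul s t)) (mul (up s') (var 0))) (Derives.hyp (by simp)) (by
      simp only [Fm.inst, Fm.subst, inst_up_left, Tm.subst]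
      exact h1)
  simp only [Fm.inst, Fm.subst, inst_up_left, Tm.subst] at h2
  exact h2

/-- Provable equality. -/
def limSetoid (T : Set Fm) (φ₀ : Fm) : Setoid Tm where
  r s t := Lim T φ₀ (eq s t)
  iseqv :=
    { refl := fun t => lim_of (Derives.eqI t)
      symm := fun h => lim_of1 h derives_symm
      trans := fun h1 h2 => lim_of2 h1 h2 derives_trans }

/-- The term model. -/
def TermModel (T : Set Fm) (φ₀ : Fm) : Type := Quotient (limSetoid T φ₀)

/-- The class of a term. -/
def cls (T : Set Fm) (φ₀ : Fm) (t : Tm) : TermModel T φ₀ := Quotient.mk (limSetoid T φ₀) t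

theorem cls_eq {s t : Tm} : cls T φ₀ s = cls T φ₀ t ↔ Lim T φ₀ (eq s t) :=
  ⟨fun h => Quotient.exact h, fun h => Quotient.sound h⟩

theorem cls_surj (x : TermModel T φ₀) : ∃ t, cls T φ₀ t = x := Quotient.exists_rep x

instance termModelOps : Ops (TermModel T φ₀) where
  zero := cls T φ₀ zero
  succ := Quotient.map succ fun _ _ h => lim_of1 h derives_succ
  add := Quotient.map₂ add fun _ _ h _ _ h' => lim_of2 h h' derives_add
  mul := Quotient.map₂ mul fun _ _ h _ _ h' => lim_of2 h h' derives_mul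

theorem eval_cls (σ : ℕ → Tm) (t : Tm) :
    eval (fun i => cls T φ₀ (σ i)) t = cls T φ₀ (t.subst σ) := by
  induction t with
  | var i => rfl
  | zero => rfl
  | succ t ih => simp only [eval, ih]; rfl
  | add s t ih1 ih2 => simp only [eval, ih1, ih2]; rfl
  | mul s t ih1 ih2 => simp only [eval, ih1, ih2]; rfl

theorem truth (hT : ∀ φ ∈ T, ∀ τ, φ.subst τ ∈ T) (h0 : ¬ Derives T [] φ₀) (φ : Fm) :
    ∀ σ : ℕ → Tm, Sat (fun i => cls T φ₀ (σ i)) φ ↔ Lim T φ₀ (φ.subst σ) := by
  induction φ with
  | eq s t =>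
    intro σ
    simp only [Sat, eval_cls, Fm.subst]
    exact cls_eq
  | fls =>
    intro σ
    exact ⟨False.elim, lim_fls hT h0⟩
  | imp φ ψ ih1 ih2 =>
    intro σ
    simp only [Sat, Fm.subst]
    rw [ih1, ih2]
    constructor
    · intro h
      rcases lim_dichotomy (T := T) (φ₀ := φ₀) (φ.subst σ) with h1 | h1
      · refine lim_of1 (h h1) (Derives.impI (Derives.hyp (by simp)))
      · refine lim_of1 h1 (Derives.impI (Derives.exfalso ?_))
        exact Derives.impE (φ := φ.subst σ) (Derives.hyp (by simp [neg])) (Derives.hyp (by simp))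
    · exact fun h h1 => lim_mp h h1
  | all φ ih =>
    intro σ
    simp only [Sat, Fm.subst]
    have hs : ∀ t : Tm, scons (cls T φ₀ t) (fun i => cls T φ₀ (σ i)) =
        fun i => cls T φ₀ (cons t σ i) := by
      intro t
      funext i
      cases i <;> rfl
    constructor
    · intro h
      by_contra hcon
      obtain ⟨t, ht⟩ := lim_henkin hT h0 hcon
      apply ht
      have h1 := h (cls T φ₀ t)
      rw [hs, ih] at h1
      have h2 := subst_lft_inst φ t σ
      unfold lft at h2
      rw [h2]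
      exact h1
    · intro h x
      obtain ⟨t, rfl⟩ := cls_surj x
      rw [hs, ih]
      have h1 : Lim T φ₀ ((φ.subst (lft σ)).inst t) :=
        lim_of1 h (Derives.allE _ (Derives.hyp (by simp [lft])))
      rw [subst_lft_inst] at h1
      exact h1

end

/-- **Completeness theorem.** -/
theorem completeness (hT : ∀ φ ∈ T, ∀ τ, φ.subst τ ∈ T) (φ₀ : Fm)
    (h : ∀ (M : Type) [Ops M], (∀ φ ∈ T, ∀ v : ℕ → M, Sat v φ) → ∀ v : ℕ → M, Sat v φ₀) :
    Proves T φ₀ := by
  by_contra h0
  have h0' : ¬ Derives T [] φ₀ := h0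
  have h1 := h (TermModel T φ₀) (by
    intro φ hφ v
    choose σ hσ using fun i => cls_surj (v i)
    have hv : v = fun i => cls T φ₀ (σ i) := funext fun i => (hσ i).symm
    rw [hv, truth hT h0']
    exact lim_of (Derives.axm (hT φ hφ σ)))
  have h2 := (truth hT h0' φ₀ var).mp (h1 _)
  rw [fm_subst_var] at h2
  apply lim_fls hT h0'
  refine lim_mp (φ := φ₀) ⟨0, ?_⟩ h2
  exact Derives.hyp (by simp [stage, neg])

end Pool.Agent.W_MP_c01b7c_lc.Peano
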