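import Pool.Agent.W_MP_c01b7c_lc.Beta
set_option linter.unusedSectionVars false

/-!
Exponentiation and binary coding of finite sets in models of Peano arithmetic.
-/

namespace Pool.Agent.W_MP_c01b7c_lc

universe u v w

variable {M : Type u} [Ops M] [PAModel M] {X : Type v} [Obj M X]

/-- Definable choice. -/
theorem def_choice {R : M → M → Prop} (hR : DefMap M (fun p : M × M => R p.1 p.2))
    (h : ∀ x, ∃ y, R x y) : ∃ F : M → M, DefMap M F ∧ ∀ x, R x (F x) := by
  have hR' : ∀ x, DefMap M (fun y => R x y) := fun x =>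
    DefMap.comp (f := fun p : M × M => R p.1 p.2) (g := fun y => (x, y)) hR (by fun_prop)
  have h' : ∀ x, ∃ y, R x y ∧ ∀ z, z < y → ¬ R x z := fun x => least (hR' x) (h x)
  choose F hF using h'
  refine ⟨F, ?_, fun x => (hF x).1⟩
  apply DefMap.of_graph
  have hR2 : DefMap M (fun p : (M × M) × M => R p.1.1 p.2) :=
    DefMap.comp (f := fun p : M × M => R p.1 p.2) (g := fun p : (M × M) × M => (p.1.1, p.2)) hR
      (by fun_prop)
  have : DefMap M (fun p : M × M => R p.1 p.2 ∧ ∀ z, z < p.2 → ¬ R p.1 z) := by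
    fun_prop
  refine this.congr ?_
  rintro ⟨x, y⟩
  constructor
  · rintro ⟨h1, h2⟩
    have a := hF x
    rcases lt_trichotomy y (F x) with hlt | heq | hgt
    · exact (a.2 y hlt h1).elim
    · exact heq
    · exact (h2 _ hgt a.1).elim
  · intro h1
    change y = F x at h1
    subst h1
    exact hF x

/-- The graph of exponentiation to base two. -/
def ExpR (x y : M) : Prop :=
  ∃ c d, Beta c d 0 1 ∧ (∀ i, i < x → ∀ z, Beta c d i z → Beta c d (i + 1) (z + z)) ∧ Beta c d x y

@[fun_prop] theorem DefMap.expR {f g : X → M} (hf : DefMap M f) (hg : DefMap M g) :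
    DefMap M (fun x => ExpR (f x) (g x)) := by
  unfold ExpR
  fun_prop

theorem expR_zero : ExpR (0 : M) 1 := by
  obtain ⟨c, d, h⟩ := beta_seq (F := fun _ : M => (1 : M)) (by fun_prop) 1
  have h0 := h 0 (by rw [lt_iff_add_one_le', zero_add])
  exact ⟨c, d, h0, fun i hi => (not_lt_zero'' i hi).elim, h0⟩

theorem expR_unique {x y y' : M} (h : ExpR x y) (h' : ExpR x y') : y = y' := by
  obtain ⟨c, d, h0, hs, hx⟩ := h
  obtain ⟨c', d', h0', hs', hx'⟩ := h'
  have key : ∀ i, i ≤ x → ∀ z, Beta c d i z → Beta c' d' i z := by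
    refine induct (by fun_prop) ?_ ?_
    · intro _ z hz
      rw [beta_unique hz h0]
      exact h0'
    · intro i ih hi z hz
      have hi' : i < x := (add_one_le_iff' i x).mp hi
      obtain ⟨w, hw⟩ := beta_exists c d i
      have h1 := hs i hi' w hw
      have h2 := hs' i hi' w (ih hi'.le w hw)
      rw [beta_unique hz h1]
      exact h2
  exact beta_unique (key x le_rfl y hx) hx'

theorem expR_succ {x y : M} (h : ExpR x y) : ExpR (x + 1) (y + y) := by
  obtain ⟨c, d, h0, hs, hx⟩ := h
  obtain ⟨F, hF, hF2⟩ := def_choice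
    (R := fun i z => (i ≤ x → Beta c d i z) ∧ (¬ i ≤ x → z = y + y)) (by fun_prop) (by
      intro i
      by_cases hi : i ≤ x
      · obtain ⟨z, hz⟩ := beta_exists c d i
        exact ⟨z, fun _ => hz, fun h => (h hi).elim⟩
      · exact ⟨y + y, fun h => (hi h).elim, fun _ => rfl⟩)
  obtain ⟨c', d', h'⟩ := beta_seq hF (x + 1 + 1)
  have hle : ∀ i, i ≤ x → ∀ z, Beta c' d' i z ↔ Beta c d i z := by
    intro i hi z
    have h1 := h' i (lt_of_le_of_lt hi ((lt_iff_add_one_le' _ _).mpr ⟨1, rfl⟩))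
    have h2 := (hF2 i).1 hi
    constructor
    · intro hz
      rw [beta_unique hz h1]; exact h2
    · intro hz
      rw [beta_unique hz h2]; exact h1
  have htop : Beta c' d' (x + 1) (y + y) := by
    have h1 := h' (x + 1) ((lt_add_one_iff' _ _).mpr le_rfl)
    have h2 := (hF2 (x + 1)).2 (not_le.mpr ((lt_add_one_iff' _ _).mpr le_rfl))
    rw [h2] at h1
    exact h1
  refine ⟨c', d', (hle 0 (zero_le'' x) 1).mpr h0, ?_, htop⟩
  intro i hi z hz
  rw [lt_add_one_iff'] at hi
  rw [hle i hi] at hz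
  rcases hi.lt_or_eq with hlt | rfl
  · rw [hle _ ((add_one_le_iff' i x).mpr hlt)]
    exact hs i hlt z hz
  · rw [beta_unique hz hx]
    exact htop

theorem expR_exists (x : M) : ∃ y, ExpR x y := by
  refine induct (P := fun x : M => ∃ y, ExpR x y) (by fun_prop) ⟨1, expR_zero⟩ ?_ x
  rintro x ⟨y, hy⟩
  exact ⟨y + y, expR_succ hy⟩

/-- Powers of two. -/
noncomputable def ex2 (x : M) : M := Classical.choose (expR_exists x)

theorem expR_iff (x y : M) : ExpR x y ↔ y = ex2 x := by
  have h := Classical.choose_spec (expR_exists x)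
  constructor
  · intro h'
    exact expR_unique h' h
  · rintro rfl
    exact h

@[fun_prop] theorem DefMap.ex2_ {f : X → M} (hf : DefMap M f) :
    DefMap M (fun x => ex2 (f x)) := by
  apply DefMap.of_graph
  have : DefMap M (fun p : X × M => ExpR (f p.1) p.2) := by fun_prop
  exact this.congr fun p => expR_iff _ _

theorem ex2_zero : ex2 (0 : M) = 1 := ((expR_iff 0 1).mp expR_zero).symm

theorem ex2_succ (x : M) : ex2 (x + 1) = ex2 x + ex2 x :=
  ((expR_iff _ _).mp (expR_succ ((expR_iff x (ex2 x)).mpr rfl))).symm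

theorem ex2_add (x y : M) : ex2 (x + y) = ex2 x * ex2 y := by
  refine induct (P := fun y : M => ex2 (x + y) = ex2 x * ex2 y) (by fun_prop) ?_ ?_ y
  · rw [add_zero, ex2_zero, mul_one]
  · intro y ih
    rw [← add_assoc, ex2_succ, ih, ex2_succ]
    ring

theorem ex2_ne_zero (x : M) : ex2 x ≠ 0 := by
  refine induct (P := fun x : M => ex2 x ≠ 0) (by fun_prop) ?_ ?_ x
  · rw [ex2_zero, ← zero_add (1 : M)]; exact add_one_ne_zero' 0
  · intro x ih
    rw [ex2_succ]
    intro h
    exact ih (eq_zero_of_add h)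

theorem ex2_pos (x : M) : 0 < ex2 x := (pos_iff _).mpr (ex2_ne_zero x)

theorem lt_ex2 (x : M) : x < ex2 x := by
  refine induct (P := fun x : M => x < ex2 x) (by fun_prop) ?_ ?_ x
  · exact ex2_pos 0
  · intro x ih
    rw [ex2_succ]
    rw [lt_iff_add_one_le'] at ih ⊢
    calc x + 1 + 1 ≤ ex2 x + 1 := by gcongr
      _ ≤ ex2 x + ex2 x := by
        gcongr
        exact (one_le_iff _).mpr (ex2_ne_zero x)

theorem ex2_lt {x y : M} (h : x < y) : ex2 x < ex2 y := by
  obtain ⟨z, rfl⟩ := (lt_def' _ _).mp h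
  rw [ex2_add, ex2_succ]
  have h1 := ex2_pos x
  have h2 : (1 : M) ≤ ex2 z := (one_le_iff _).mpr (ex2_ne_zero z)
  calc ex2 x < ex2 x + ex2 x := lt_add_of_pos_right _ h1
    _ = (ex2 x + ex2 x) * 1 := by ring
    _ ≤ (ex2 x + ex2 x) * ex2 z := by gcongr

theorem ex2_le {x y : M} (h : x ≤ y) : ex2 x ≤ ex2 y := by
  rcases h.lt_or_eq with h | rfl
  · exact (ex2_lt h).le
  · exact le_rfl

theorem ex2_lt_iff {x y : M} : ex2 x < ex2 y ↔ x < y := by
  constructor
  · intro h
    by_contra hle
    push Not at hle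
    exact (not_lt.mpr (ex2_le hle)) h
  · exact ex2_lt

/-- Membership in the finite set coded by `s`: the binary digit of `s` at place `x` is one. -/
def mem (x s : M) : Prop := ∃ q r, s = (q + q + 1) * ex2 x + r ∧ r < ex2 x

@[fun_prop] theorem DefMap.mem_ {f g : X → M} (hf : DefMap M f) (hg : DefMap M g) :
    DefMap M (fun x => mem (f x) (g x)) := by
  unfold mem
  fun_prop

theorem mem_le {x s : M} (h : mem x s) : ex2 x ≤ s := by
  obtain ⟨q, r, rfl, -⟩ := h
  exact ⟨(q + q) * ex2 x + r, by ring⟩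

theorem mem_lt {x s : M} (h : mem x s) : x < s := lt_of_lt_of_le (lt_ex2 x) (mem_le h)

theorem not_mem_zero (x : M) : ¬ mem x 0 := fun h => not_lt_zero'' _ (mem_lt h)

theorem not_mem_of_lt {x s : M} (h : s < ex2 x) : ¬ mem x s := fun h' =>
  (not_lt.mpr (mem_le h')) h

theorem mem_top {n s : M} (h : s < ex2 n) : mem n (s + ex2 n) := ⟨0, s, by ring, h⟩

theorem mem_add_top {n s : M} (hs : s < ex2 n) (x : M) :
    mem x (s + ex2 n) ↔ x = n ∨ mem x s := by
  rcases lt_trichotomy x n with hlt | rfl | hgt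
  · obtain ⟨z, hz⟩ := (lt_def' _ _).mp hlt
    have hn : ex2 n = (ex2 x + ex2 x) * ex2 z := by rw [← hz, ex2_add, ex2_succ]
    constructor
    · rintro ⟨q, r, h1, h2⟩
      right
      have hp : ex2 x + ex2 x ≠ 0 := fun h => ex2_ne_zero x (eq_zero_of_add h)
      obtain ⟨a, b, hab, hb⟩ := div_exists s hp
      have h3 : (a + ex2 z) * (ex2 x + ex2 x) + b = q * (ex2 x + ex2 x) + (ex2 x + r) := by
        calc (a + ex2 z) * (ex2 x + ex2 x) + b
            = (a * (ex2 x + ex2 x) + b) + (ex2 x + ex2 x) * ex2 z := by ring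
          _ = s + ex2 n := by rw [← hab, hn]
          _ = (q + q + 1) * ex2 x + r := h1
          _ = q * (ex2 x + ex2 x) + (ex2 x + r) := by ring
      have h4 := (div_unique hb (by gcongr) h3).2
      refine ⟨a, r, ?_, h2⟩
      rw [hab, h4]
      ring
    · rintro (rfl | ⟨q, r, h1, h2⟩)
      · exact (lt_irrefl _ hlt).elim
      · refine ⟨q + ex2 z, r, ?_, h2⟩
        rw [h1, hn]
        ring
  · exact ⟨fun _ => Or.inl rfl, fun _ => mem_top hs⟩
  · constructor
    · intro h
      exfalso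
      have h1 := mem_le h
      have h2 : s + ex2 n < ex2 n + ex2 n := by gcongr
      rw [← ex2_succ] at h2
      have h3 : ex2 (n + 1) ≤ ex2 x := ex2_le ((add_one_le_iff' _ _).mpr hgt)
      exact absurd (h1.trans_lt (h2.trans_le h3)) (lt_irrefl _)
    · rintro (rfl | h)
      · exact (lt_irrefl _ hgt).elim
      · exact (not_mem_of_lt (hs.trans (ex2_lt hgt)) h).elim

theorem top_decomp {s : M} (hs : s ≠ 0) : ∃ n s', s = s' + ex2 n ∧ s' < ex2 n := by
  obtain ⟨n, hn, hmax⟩ := greatest (P := fun n : M => ex2 n ≤ s) (by fun_prop)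
    ⟨0, by rw [ex2_zero]; exact (one_le_iff s).mpr hs⟩ s (fun x hx => (lt_ex2 x).le.trans hx)
  obtain ⟨s', rfl⟩ := hn
  refine ⟨n, s', by ring, ?_⟩
  by_contra hle
  push Not at hle
  have h1 : ex2 (n + 1) ≤ ex2 n + s' := by rw [ex2_succ]; gcongr
  have := hmax _ h1
  exact absurd this (not_le.mpr ((lt_add_one_iff' n n).mpr le_rfl))

/-- Comprehension: bounded definable sets are coded. -/
theorem comprehension {P : M → Prop} (hP : DefMap M P) (n : M) :
    ∃ s, s < ex2 n ∧ ∀ x, mem x s ↔ x < n ∧ P x := by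
  refine induct (P := fun n : M => ∃ s, s < ex2 n ∧ ∀ x, mem x s ↔ x < n ∧ P x)
    (by fun_prop) ?_ ?_ n
  · refine ⟨0, ex2_pos 0, ?_⟩
    intro x
    constructor
    · intro h; exact (not_mem_zero x h).elim
    · rintro ⟨h, -⟩; exact (not_lt_zero'' x h).elim
  · rintro n ⟨s, hs, h⟩
    by_cases hn : P n
    · refine ⟨s + ex2 n, ?_, ?_⟩
      · rw [ex2_succ]; gcongr
      · intro x
        rw [mem_add_top hs, h, lt_add_one_iff', le_iff_lt_or_eq]
        constructor
        · rintro (rfl | ⟨h1, h2⟩)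
          · exact ⟨Or.inr rfl, hn⟩
          · exact ⟨Or.inl h1, h2⟩
        · rintro ⟨h1 | rfl, h2⟩
          · exact Or.inr ⟨h1, h2⟩
          · exact Or.inl rfl
    · refine ⟨s, ?_, ?_⟩
      · rw [ex2_succ]
        exact hs.trans (lt_add_of_pos_right _ (ex2_pos n))
      · intro x
        rw [h, lt_add_one_iff', le_iff_lt_or_eq]
        constructor
        · rintro ⟨h1, h2⟩
          exact ⟨Or.inl h1, h2⟩
        · rintro ⟨h1 | rfl, h2⟩
          · exact ⟨h1, h2⟩
          · exact (hn h2).elim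

/-- Extensionality. -/
theorem set_ext : ∀ {s t : M}, (∀ x, mem x s ↔ mem x t) → s = t := by
  intro s
  refine strong_induct (P := fun s : M => ∀ {t : M}, (∀ x, mem x s ↔ mem x t) → s = t)
    (by fun_prop) ?_ s
  intro s ih t hst
  by_cases hs : s = 0
  · by_contra hne
    have ht : t ≠ 0 := fun h => hne (by rw [hs, h])
    obtain ⟨m, t', rfl, ht'⟩ := top_decomp ht
    have := (hst m).mpr (mem_top ht')
    rw [hs] at this
    exact not_mem_zero m this
  · obtain ⟨n, s', rfl, hs'⟩ := top_decomp hs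
    have hnt : mem n t := (hst n).mp (mem_top hs')
    have ht : t ≠ 0 := by
      rintro rfl
      exact not_mem_zero n hnt
    obtain ⟨m, t', rfl, ht'⟩ := top_decomp ht
    have hms : mem m (s' + ex2 n) := (hst m).mpr (mem_top ht')
    have hnm : n = m := by
      rw [mem_add_top ht'] at hnt
      rw [mem_add_top hs'] at hms
      rcases hnt with h | h
      · exact h
      rcases hms with h' | h'
      · exact h'.symm
      have h1 : n < m := ex2_lt_iff.mp ((mem_le h).trans_lt ht')
      have h2 : m < n := ex2_lt_iff.mp ((mem_le h').trans_lt hs')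
      exact (lt_asymm h1 h2).elim
    subst hnm
    have : s' = t' := by
      refine ih s' (lt_add_of_pos_right _ (ex2_pos n)) ?_
      intro x
      have hx := hst x
      rw [mem_add_top hs', mem_add_top ht'] at hx
      constructor
      · intro h
        rcases hx.mp (Or.inr h) with rfl | h'
        · exact (not_mem_of_lt hs' h).elim
        · exact h'
      · intro h
        rcases hx.mpr (Or.inr h) with rfl | h'
        · exact (not_mem_of_lt ht' h).elim
        · exact h'
    rw [this]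

theorem lt_ex2_of_bounded {s n : M} (h : ∀ x, mem x s → x < n) : s < ex2 n := by
  by_cases hs : s = 0
  · rw [hs]; exact ex2_pos n
  · obtain ⟨m, s', rfl, hs'⟩ := top_decomp hs
    have hm := h m (mem_top hs')
    calc s' + ex2 m < ex2 m + ex2 m := by gcongr
      _ = ex2 (m + 1) := (ex2_succ m).symm
      _ ≤ ex2 n := ex2_le ((add_one_le_iff' _ _).mpr hm)

end Pool.Agent.W_MP_c01b7c_lc
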