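import Mathlib

/-!
First-order arithmetic with de Bruijn variables: syntax, natural deduction, Peano arithmetic, and
the arithmetical formula for the Paris-Harrington relation `n →_* (e + 1)^e_2`.
-/

namespace Pool.Agent.W_MP_c01b7c_lc.Peano

/-! ### Syntax -/

/-- Terms of the language `0, S, +, *`. Variables are de Bruijn indices: inside the scope of
quantifiers, `var 0` is the innermost quantified variable, `var 1` the next one, and so on. -/
inductive Tm : Type
  | var (i : ℕ) : Tm
  | zero : Tm
  | succ (t : Tm) : Tm
  | add (s t : Tm) : Tm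
  | mul (s t : Tm) : Tm

/-- Formulas: equations, falsity, implication, universal quantification. -/
inductive Fm : Type
  | eq (s t : Tm) : Fm
  | fls : Fm
  | imp (φ ψ : Fm) : Fm
  | all (φ : Fm) : Fm

open Tm Fm

/-- The sequence `a, f 0, f 1, f 2, ...`. -/
def cons {α : Type} (a : α) (f : ℕ → α) : ℕ → α
  | 0 => a
  | i + 1 => f i

/-- Substitution in terms: `var i` is replaced by `σ i`. -/
def Tm.subst (σ : ℕ → Tm) : Tm → Tm
  | var i => σ i
  | zero => zero
  | succ t => succ (t.subst σ)
  | add s t => add (s.subst σ) (t.subst σ)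
  | mul s t => mul (s.subst σ) (t.subst σ)

/-- The term `t` in the scope of one more quantifier. -/
def up (t : Tm) : Tm := t.subst fun i => var (i + 1)

/-- Substitution in formulas (capture-avoiding). -/
def Fm.subst : (ℕ → Tm) → Fm → Fm
  | σ, eq s t => eq (s.subst σ) (t.subst σ)
  | _, fls => fls
  | σ, imp φ ψ => imp (φ.subst σ) (ψ.subst σ)
  | σ, all φ => all (φ.subst (cons (var 0) fun i => up (σ i)))

/-- The formula `φ` in the scope of one more quantifier. -/
def Fm.lift (φ : Fm) : Fm := φ.subst fun i => var (i + 1)

/-- The instance `φ(t)` of the body `φ` of a quantified formula. -/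
def Fm.inst (φ : Fm) (t : Tm) : Fm := φ.subst (cons t var)

/-! ### Natural deduction -/

/-- `Derives T Γ φ`: the formula `φ` is derivable in classical natural deduction with equality from
the hypotheses `Γ` and the axioms `T`. -/
inductive Derives (T : Set Fm) : List Fm → Fm → Prop
  | axm {Γ : List Fm} {φ : Fm} : φ ∈ T → Derives T Γ φ
  | hyp {Γ : List Fm} {φ : Fm} : φ ∈ Γ → Derives T Γ φ
  | impI {Γ : List Fm} {φ ψ : Fm} : Derives T (φ :: Γ) ψ → Derives T Γ (imp φ ψ)
  | impE {Γ : List Fm} {φ ψ : Fm} : Derives T Γ (imp φ ψ) → Derives T Γ φ → Derives T Γ ψ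
  | raa {Γ : List Fm} {φ : Fm} : Derives T (imp φ fls :: Γ) fls → Derives T Γ φ
  | allI {Γ : List Fm} {φ : Fm} : Derives T (Γ.map Fm.lift) φ → Derives T Γ (all φ)
  | allE {Γ : List Fm} {φ : Fm} (t : Tm) : Derives T Γ (all φ) → Derives T Γ (φ.inst t)
  | eqI {Γ : List Fm} (t : Tm) : Derives T Γ (eq t t)
  | eqE {Γ : List Fm} {s t : Tm} (φ : Fm) :
      Derives T Γ (eq s t) → Derives T Γ (φ.inst s) → Derives T Γ (φ.inst t)

/-- `T` proves `φ`. -/
def Proves (T : Set Fm) (φ : Fm) : Prop := Derives T [] φ

/-! ### Peano arithmetic -/

/-- The induction axiom `φ(0) → ∀ x (φ(x) → φ(S x)) → ∀ x φ(x)`; here `x` is `var 0` in `φ`, and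
the other free variables of `φ` are parameters. -/
def induction (φ : Fm) : Fm :=
  imp (φ.inst zero)
    (imp (all (imp φ (φ.subst (cons (succ (var 0)) fun i => var (i + 1))))) (all φ))

/-- The axioms of Peano arithmetic. -/
inductive PA : Set Fm
  | succ_ne_zero : PA (all (imp (eq (succ (var 0)) zero) fls))
  | succ_inj : PA (all (all (imp (eq (succ (var 1)) (succ (var 0))) (eq (var 1) (var 0)))))
  | add_zero : PA (all (eq (add (var 0) zero) (var 0)))
  | add_succ : PA (all (all (eq (add (var 1) (succ (var 0))) (succ (add (var 1) (var 0))))))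
  | mul_zero : PA (all (eq (mul (var 0) zero) zero))
  | mul_succ : PA (all (all (eq (mul (var 1) (succ (var 0))) (add (mul (var 1) (var 0)) (var 1)))))
  | ind (φ : Fm) : PA (induction φ)

/-! ### Arithmetical formulas -/

def neg (φ : Fm) : Fm := imp φ fls
def ex (φ : Fm) : Fm := neg (all (neg φ))
def conj (φ ψ : Fm) : Fm := neg (imp φ (neg ψ))
def disj (φ ψ : Fm) : Fm := imp (neg φ) ψ

/-- `s < t`: there is `z` with `s + S z = t`. -/
def fLt (s t : Tm) : Fm := ex (eq (add (up s) (succ (var 0))) (up t))

/-- `s ≤ t`: there is `z` with `s + z = t`. -/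
def fLe (s t : Tm) : Fm := ex (eq (add (up s) (var 0)) (up t))

/-- Gödel's beta function: `y` is the remainder of `c` on division by `m = S ((S i) * d)`, that is,
`y < m` and there is `q` with `c = q * m + y`. -/
def fBeta (c d i y : Tm) : Fm :=
  conj (fLt y (succ (mul (succ i) d)))
    (ex (eq (up c) (add (mul (var 0) (up (succ (mul (succ i) d)))) (up y))))

/-- `y = 2 ^ x`: there are `c, d` with `β(c, d, 0) = 1`, with `β(c, d, S i) = z + z` whenever
`i < x` and `β(c, d, i) = z`, and with `β(c, d, x) = y`. -/
def fExp (x y : Tm) : Fm :=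
  ex (ex -- `c = var 1`, `d = var 0`
    (conj (fBeta (var 1) (var 0) zero (succ zero))
      (conj
        (all -- `i`
          (imp (fLt (var 0) (up (up (up x))))
            (all -- `z`
              (imp (fBeta (var 3) (var 2) (var 1) (var 0))
                (fBeta (var 3) (var 2) (succ (var 1)) (add (var 0) (var 0)))))))
        (fBeta (var 1) (var 0) (up (up x)) (up (up y))))))

/-- `x ∈ s`: the binary digit of `s` at place `x` is one, that is, there are `p = 2 ^ x` and
`q, r` with `s = S (q + q) * p + r` and `r < p`. Numbers code finite sets in this way. -/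
def fMem (x s : Tm) : Fm :=
  ex -- `p`
    (conj (fExp (up x) (var 0))
      (ex (ex -- `p = var 2`, `q = var 1`, `r = var 0`
        (conj (eq (up (up (up s))) (add (mul (succ (add (var 1) (var 1))) (var 2)) (var 0)))
          (fLt (var 0) (var 2))))))

/-- `s ⊆ t` for coded finite sets. -/
def fSub (s t : Tm) : Fm := all (imp (fMem (var 0) (up s)) (fMem (var 0) (up t)))

/-- `|s| = k` for a coded finite set `s`: there are `c, d` such that `i ↦ β(c, d, i)` is a
bijection from `{0, ..., k - 1}` onto `s`. -/
def fCard (s k : Tm) : Fm :=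
  ex (ex -- `c`, `d`
    (conj
      (all -- `i`
        (imp (fLt (var 0) (up (up (up k))))
          (all -- `x`
            (imp (fBeta (var 3) (var 2) (var 1) (var 0))
              (fMem (var 0) (up (up (up (up s)))))))))
      (conj
        (all -- `x`
          (imp (fMem (var 0) (up (up (up s))))
            (ex -- `i`
              (conj (fLt (var 0) (up (up (up (up k)))))
                (fBeta (var 3) (var 2) (var 0) (var 1))))))
        (all -- `i`
          (imp (fLt (var 0) (up (up (up k))))
            (all -- `j`
              (imp (fLt (var 0) (up (up (up (up k)))))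
                (all -- `x`
                  (imp (fBeta (var 4) (var 3) (var 2) (var 0))
                    (imp (fBeta (var 4) (var 3) (var 1) (var 0))
                      (eq (var 2) (var 1))))))))))))

/-- `H` is homogeneous for the two-colouring of the `e`-element sets in which the sets in `F` have
one colour and the other sets have the other colour. -/
def fHom (F e H : Tm) : Fm :=
  disj
    (all (imp (fSub (var 0) (up H)) (imp (fCard (var 0) (up e)) (fMem (var 0) (up F)))))
    (all (imp (fSub (var 0) (up H)) (imp (fCard (var 0) (up e)) (neg (fMem (var 0) (up F))))))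

/-- The Paris-Harrington relation `n →_* (e + 1)^e_2`: for every `F` there is a set `H` of numbers
below `n` which is homogeneous for the colouring given by `F`, such that for its cardinality `k`
and its least element `m` we have `e + 1 ≤ k` and `m ≤ k`. -/
def fPH (e n : Tm) : Fm :=
  all (ex -- `F = var 1`, `H = var 0`
    (conj (all (imp (fMem (var 0) (var 1)) (fLt (var 0) (up (up (up n))))))
      (conj (fHom (var 1) (up (up e)) (var 0))
        (ex -- `k`
          (conj (fCard (var 1) (var 0))
            (conj (fLe (succ (up (up (up e)))) (var 0))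
              (ex -- `m`
                (conj (fMem (var 0) (var 2))
                  (conj (all (imp (fMem (var 0) (var 3)) (fLe (var 1) (var 0))))
                    (fLe (var 0) (var 1)))))))))))

/-! ### Truth in the standard model, and the Paris-Harrington relation -/

/-- The value of a term in the natural numbers. -/
def val (v : ℕ → ℕ) : Tm → ℕ
  | var i => v i
  | zero => 0
  | succ t => val v t + 1
  | add s t => val v s + val v t
  | mul s t => val v s * val v t

/-- Truth of a formula in the natural numbers. -/
def Holds : (ℕ → ℕ) → Fm → Prop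
  | v, eq s t => val v s = val v t
  | _, fls => False
  | v, imp φ ψ => Holds v φ → Holds v ψ
  | v, all φ => ∀ x : ℕ, Holds (cons x v) φ

/-- The Paris-Harrington partition relation `n →_* (k)^e_c`: for every colouring `F` of the
`e`-element sets with `c` colours there is a set `H` of numbers below `n` such that `F` is
constant on the `e`-element subsets of `H`, `|H| ≥ k`, and `|H| ≥ min H`. -/
def Arrow (n k e c : ℕ) : Prop :=
  ∀ F : Finset ℕ → Fin c, ∃ H : Finset ℕ, (∀ x ∈ H, x < n) ∧
    (∃ i, ∀ X, X ⊆ H → X.card = e → F X = i) ∧ k ≤ H.card ∧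
    ∀ m ∈ H, (∀ x ∈ H, m ≤ x) → m ≤ H.card

end Pool.Agent.W_MP_c01b7c_lc.Peano
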