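import Pool.Agent.W_MP_c01b7c_lc.Sets
set_option linter.unusedSectionVars false

/-!
The finite Ramsey theorem (two colours) in models of Peano arithmetic, and the
Paris-Harrington relation for sets of size `e + 1`.
-/

namespace Pool.Agent.W_MP_c01b7c_lc

universe u v w

variable {M : Type u} [Ops M] [PAModel M] {X : Type v} [Obj M X]

/-- `H` is homogeneous for the colouring of the `e`-element sets given by membership in `F`. -/
def Hom (F e H : M) : Prop :=
  (∀ X, Sub X H → CardR X e → mem X F) ∨ (∀ X, Sub X H → CardR X e → ¬ mem X F)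

@[fun_prop] theorem DefMap.hom_ {f g h : X → M} (hf : DefMap M f) (hg : DefMap M g)
    (hh : DefMap M h) : DefMap M (fun x => Hom (f x) (g x) (h x)) := by
  unfold Hom; fun_prop

theorem Hom.mono {F e H H' : M} (h : Hom F e H) (hs : Sub H' H) : Hom F e H' := by
  rcases h with h | h
  · exact Or.inl fun X hX => h X (hX.trans' hs)
  · exact Or.inr fun X hX => h X (hX.trans' hs)

theorem sub_lt {X Y : M} (h : Sub X Y) : X < ex2 Y :=
  lt_ex2_of_bounded fun x hx => mem_lt (h x hx)

/-- Min-homogeneous sets. -/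
def MinHom (F e Z : M) : Prop :=
  ∀ x, mem x Z →
    (∀ X, Sub X Z → (∀ y, mem y X → x < y) → CardR X e → mem (ins x X) F) ∨
    (∀ X, Sub X Z → (∀ y, mem y X → x < y) → CardR X e → ¬ mem (ins x X) F)

@[fun_prop] theorem DefMap.minhom_ {f g h : X → M} (hf : DefMap M f) (hg : DefMap M g)
    (hh : DefMap M h) : DefMap M (fun x => MinHom (f x) (g x) (h x)) := by
  unfold MinHom; fun_prop

theorem ramsey_min (e : M)
    (IH : ∀ k : M, ∃ N, ∀ Y, N ≤ card Y → ∀ F, ∃ Z, Sub Z Y ∧ card Z = k ∧ Hom F e Z) (m : M) :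
    ∃ N, ∀ Y, N ≤ card Y → ∀ F, ∃ Z, Sub Z Y ∧ card Z = m ∧ MinHom F e Z := by
  refine induct (P := fun m : M => ∃ N, ∀ Y, N ≤ card Y → ∀ F, ∃ Z, Sub Z Y ∧ card Z = m ∧
    MinHom F e Z) (by fun_prop) ?_ ?_ m
  · refine ⟨0, fun Y _ F => ⟨0, ?_, card_zero, ?_⟩⟩
    · intro x hx; exact (not_mem_zero x hx).elim
    · intro x hx; exact (not_mem_zero x hx).elim
  · rintro m ⟨Nm, hNm⟩
    obtain ⟨N', hN'⟩ := IH Nm
    refine ⟨N' + 1, fun Y hY F => ?_⟩
    have hY0 : Y ≠ 0 := by
      rintro rfl
      rw [card_zero] at hY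
      exact add_one_ne_zero' N' (le_antisymm hY (zero_le'' _))
    obtain ⟨x, hxY, hxmin⟩ := exists_min hY0
    have hc : N' ≤ card (era x Y) := by
      rw [← card_era hxY] at hY
      exact (add_le_add_iff_right 1).mp hY
    have hF' : DefMap M (fun X => mem (ins x X) F) := by fun_prop
    obtain ⟨Z', hZ'1, hZ'2, hZ'3⟩ := hN' (era x Y) hc (sep (ex2 Y) (fun X => mem (ins x X) F))
    obtain ⟨Z, hZ1, hZ2, hZ3⟩ := hNm Z' hZ'2.ge F
    have hZY : Sub Z (era x Y) := hZ1.trans' hZ'1
    have hxZ : ¬ mem x Z := fun h => (mem_era.mp (hZY x h)).1 rfl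
    refine ⟨ins x Z, ?_, by rw [card_ins hxZ, hZ2], ?_⟩
    · intro y hy
      rw [mem_ins] at hy
      rcases hy with rfl | hy
      · exact hxY
      · exact (mem_era.mp (hZY y hy)).2
    · intro w hw
      rw [mem_ins] at hw
      rcases hw with rfl | hw
      · have hsub : ∀ X, Sub X (ins w Z) → (∀ y, mem y X → w < y) → Sub X Z := by
          intro X hX hlt y hy
          rcases mem_ins.mp (hX y hy) with rfl | h
          · exact (lt_irrefl _ (hlt y hy)).elim
          · exact h
        have hX : ∀ X, Sub X Z → (mem X (sep (ex2 Y) (fun X => mem (ins w X) F)) ↔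
            mem (ins w X) F) := by
          intro X hX
          rw [mem_sep hF']
          refine ⟨fun h => h.2, fun h => ⟨sub_lt ?_, h⟩⟩
          exact fun y hy => (mem_era.mp (hZY y (hX y hy))).2
        rcases hZ'3 with h | h
        · left
          intro X h1 h2 h3
          have h4 := hsub X h1 h2
          exact (hX X h4).mp (h X (h4.trans' hZ1) h3)
        · right
          intro X h1 h2 h3
          have h4 := hsub X h1 h2
          exact fun h5 => h X (h4.trans' hZ1) h3 ((hX X h4).mpr h5)
      · have hxw : x < w := by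
          have h1 := mem_era.mp (hZY w hw)
          exact lt_of_le_of_ne (hxmin w h1.2) (Ne.symm h1.1)
        have hsub : ∀ X, Sub X (ins x Z) → (∀ y, mem y X → w < y) → Sub X Z := by
          intro X hX hlt y hy
          rcases mem_ins.mp (hX y hy) with rfl | h
          · exact (lt_asymm hxw (hlt y hy)).elim
          · exact h
        rcases hZ3 w hw with h | h
        · exact Or.inl fun X h1 h2 h3 => h X (hsub X h1 h2) h2 h3
        · exact Or.inr fun X h1 h2 h3 => h X (hsub X h1 h2) h2 h3

theorem card_sep_add {Z : M} {P : M → Prop} (hP : DefMap M P) :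
    card (sep Z (fun x => mem x Z ∧ P x)) + card (sep Z (fun x => mem x Z ∧ ¬ P x)) = card Z := by
  rw [← card_uni]
  · congr 1
    apply set_ext
    intro x
    rw [mem_uni, mem_sep_sub hP, mem_sep_sub (by fun_prop)]
    tauto
  · intro x hx hx'
    rw [mem_sep_sub hP] at hx
    rw [mem_sep_sub (by fun_prop)] at hx'
    exact hx'.2 hx.2

/-- The finite Ramsey theorem for two colours. -/
theorem ramsey (e : M) :
    ∀ k : M, ∃ N, ∀ Y, N ≤ card Y → ∀ F, ∃ Z, Sub Z Y ∧ card Z = k ∧ Hom F e Z := by
  refine induct (P := fun e : M => ∀ k : M, ∃ N, ∀ Y, N ≤ card Y → ∀ F, ∃ Z, Sub Z Y ∧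
    card Z = k ∧ Hom F e Z) (by fun_prop) ?_ ?_ e
  · intro k
    refine ⟨k, fun Y hY F => ?_⟩
    obtain ⟨Z, hZ, hZk⟩ := exists_subset_card hY
    refine ⟨Z, hZ, hZk, ?_⟩
    by_cases h : mem 0 F
    · exact Or.inl fun X _ hX => by rw [cardR_zero_iff.mp hX]; exact h
    · exact Or.inr fun X _ hX => by rw [cardR_zero_iff.mp hX]; exact h
  · intro e IH k
    obtain ⟨N, hN⟩ := ramsey_min e IH (k + k)
    refine ⟨N, fun Y hY F => ?_⟩
    obtain ⟨Z, hZY, hZc, hZ⟩ := hN Y hY F
    set P : M → Prop := fun x =>
      ∀ X, Sub X Z → (∀ y, mem y X → x < y) → CardR X e → mem (ins x X) F with hPdef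
    have hP : DefMap M P := by rw [hPdef]; fun_prop
    have hsum := card_sep_add (Z := Z) hP
    rw [hZc] at hsum
    have hmin : ∀ W, Sub W Z → ∀ X, Sub X W → CardR X (e + 1) →
        ∃ x X', mem x W ∧ X = ins x X' ∧ Sub X' Z ∧ (∀ y, mem y X' → x < y) ∧ CardR X' e := by
      intro W hW X hX hXc
      have hX0 : X ≠ 0 := by
        rintro rfl
        exact add_one_ne_zero' e (cardR_zero_right hXc)
      obtain ⟨x, hx, hxm⟩ := exists_min hX0
      refine ⟨x, era x X, hX x hx, (ins_era hx).symm, ?_, ?_, ?_⟩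
      · exact fun y hy => hW y (hX y (mem_era.mp hy).2)
      · intro y hy
        have h := mem_era.mp hy
        exact lt_of_le_of_ne (hxm y h.2) (Ne.symm h.1)
      · obtain ⟨k', hk', hk2⟩ := cardR_era hx hXc
        rw [add_one_inj' hk']
        exact hk2
    by_cases hD : k ≤ card (sep Z (fun x => mem x Z ∧ P x))
    · obtain ⟨W, hW, hWk⟩ := exists_subset_card hD
      have hWZ : Sub W Z := fun x hx => ((mem_sep_sub hP x).mp (hW x hx)).1
      refine ⟨W, hWZ.trans' hZY, hWk, Or.inl ?_⟩
      intro X hX hXc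
      obtain ⟨x, X', hx, rfl, h1, h2, h3⟩ := hmin W hWZ X hX hXc
      exact ((mem_sep_sub hP x).mp (hW x hx)).2 X' h1 h2 h3
    · have hD' : k ≤ card (sep Z (fun x => mem x Z ∧ ¬ P x)) := by
        by_contra hlt
        push Not at hD hlt
        have := add_lt_add hD hlt
        rw [hsum] at this
        exact lt_irrefl _ this
      obtain ⟨W, hW, hWk⟩ := exists_subset_card hD'
      have hWZ : Sub W Z := fun x hx => ((mem_sep_sub (by fun_prop) x).mp (hW x hx)).1
      refine ⟨W, hWZ.trans' hZY, hWk, Or.inr ?_⟩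
      intro X hX hXc
      obtain ⟨x, X', hx, rfl, h1, h2, h3⟩ := hmin W hWZ X hX hXc
      have hnP := ((mem_sep_sub (by fun_prop) x).mp (hW x hx)).2
      rcases hZ x (hWZ x hx) with h | h
      · exact (hnP h).elim
      · exact h X' h1 h2 h3

/-- Homogeneity of the link of `m`. -/
def HomLink (F m j K : M) : Prop :=
  (∀ X, Sub X K → CardR X j → mem (uni m X) F) ∨ (∀ X, Sub X K → CardR X j → ¬ mem (uni m X) F)

@[fun_prop] theorem DefMap.homlink_ {f g h k : X → M} (hf : DefMap M f) (hg : DefMap M g)
    (hh : DefMap M h) (hk : DefMap M k) :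
    DefMap M (fun x => HomLink (f x) (g x) (h x) (k x)) := by
  unfold HomLink; fun_prop

theorem HomLink.mono {F m j K K' : M} (h : HomLink F m j K) (hs : Sub K' K) :
    HomLink F m j K' := by
  rcases h with h | h
  · exact Or.inl fun X hX => h X (hX.trans' hs)
  · exact Or.inr fun X hX => h X (hX.trans' hs)

/-- Simultaneous Ramsey theorem for the links of all `m < t`. -/
theorem ramsey_links (e t : M) :
    ∀ k : M, ∃ N, ∀ Y, N ≤ card Y → ∀ F, ∃ K, Sub K Y ∧ card K = k ∧
      ∀ m, m < t → ∀ j, card m + j = e → HomLink F m j K := by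
  refine induct (P := fun t : M => ∀ k : M, ∃ N, ∀ Y, N ≤ card Y → ∀ F, ∃ K, Sub K Y ∧
    card K = k ∧ ∀ m, m < t → ∀ j, card m + j = e → HomLink F m j K) (by fun_prop) ?_ ?_ t
  · intro k
    refine ⟨k, fun Y hY F => ?_⟩
    obtain ⟨K, hK, hKk⟩ := exists_subset_card hY
    exact ⟨K, hK, hKk, fun m hm => (not_lt_zero'' m hm).elim⟩
  · intro t IH k
    by_cases hj : ∃ j, card t + j = e
    · obtain ⟨j, hj⟩ := hj
      obtain ⟨N1, hN1⟩ := ramsey j k
      obtain ⟨N, hN⟩ := IH N1
      refine ⟨N, fun Y hY F => ?_⟩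
      obtain ⟨K1, hK1Y, hK1c, hK1⟩ := hN Y hY F
      obtain ⟨K, hK, hKc, hKh⟩ := hN1 K1 hK1c.ge (sep (ex2 K1) (fun X => mem (uni t X) F))
      have hlink : HomLink F t j K := by
        have hX : ∀ X, Sub X K → (mem X (sep (ex2 K1) (fun X => mem (uni t X) F)) ↔
            mem (uni t X) F) := by
          intro X hX
          rw [mem_sep (by fun_prop)]
          exact ⟨fun h => h.2, fun h => ⟨sub_lt (hX.trans' hK), h⟩⟩
        rcases hKh with h | h
        · exact Or.inl fun X h1 h2 => (hX X h1).mp (h X h1 h2)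
        · exact Or.inr fun X h1 h2 h3 => h X h1 h2 ((hX X h1).mpr h3)
      refine ⟨K, hK.trans' hK1Y, hKc, ?_⟩
      intro m hm j' hj'
      rw [lt_add_one_iff'] at hm
      rcases hm.lt_or_eq with hm | rfl
      · exact (hK1 m hm j' hj').mono hK
      · have : j' = j := by
          apply add_right_cancel'' (z := card m)
          rw [add_comm j', hj', add_comm j, hj]
        rw [this]
        exact hlink
    · obtain ⟨N, hN⟩ := IH k
      refine ⟨N, fun Y hY F => ?_⟩
      obtain ⟨K, hKY, hKc, hK⟩ := hN Y hY F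
      refine ⟨K, hKY, hKc, ?_⟩
      intro m hm j' hj'
      rw [lt_add_one_iff'] at hm
      rcases hm.lt_or_eq with hm | rfl
      · exact hK m hm j' hj'
      · exact (hj ⟨j', hj'⟩).elim

theorem exists_era {W H : M} (hs : Sub W H) (hc : card W + 1 = card H) :
    ∃ z, mem z H ∧ W = era z H := by
  have hne : ∃ z, mem z H ∧ ¬ mem z W := by
    by_contra hcon
    push Not at hcon
    have : W = H := hs.antisymm' hcon
    rw [this] at hc
    exact absurd ((lt_add_one_iff' _ _).mpr (le_refl (card H))) (by rw [hc]; exact lt_irrefl _)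
  obtain ⟨z, hz, hzW⟩ := hne
  refine ⟨z, hz, ?_⟩
  apply eq_of_sub_card
  · intro x hx
    exact mem_era.mpr ⟨fun e => hzW (e ▸ hx), hs x hx⟩
  · have := card_era hz
    rw [← hc] at this
    rw [add_one_inj' this]

/-- The Paris-Harrington property of a number `n` for the exponent `e`: for every `F` there is a
relatively large set `H` of at least `e + 1` numbers below `n` which is homogeneous for the
two-colouring given by membership in `F`. -/
def PH (e n : M) : Prop :=
  ∀ F, ∃ H, (∀ x, mem x H → x < n) ∧ Hom F e H ∧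
    ∃ k, CardR H k ∧ e + 1 ≤ k ∧ ∃ m, mem m H ∧ (∀ x, mem x H → m ≤ x) ∧ m ≤ k

theorem ph_of_hom {e n F H a : M} (h1 : ∀ x, mem x H → x < n) (h2 : Hom F e H)
    (h3 : card H = e + 1) (h4 : mem a H) (h5 : a ≤ e + 1) :
    ∃ H, (∀ x, mem x H → x < n) ∧ Hom F e H ∧
      ∃ k, CardR H k ∧ e + 1 ≤ k ∧ ∃ m, mem m H ∧ (∀ x, mem x H → m ≤ x) ∧ m ≤ k := by
  have hH : H ≠ 0 := by
    rintro rfl
    exact not_mem_zero a h4
  obtain ⟨m, hm, hmin⟩ := exists_min hH
  exact ⟨H, h1, h2, card H, cardR_iff.mpr rfl, h3.ge, m, hm, hmin, by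
    rw [h3]; exact (hmin a h4).trans h5⟩

/-- **Main theorem inside a model.** -/
theorem exists_ph (e : M) : ∃ n, PH e n := by
  obtain ⟨N, hN⟩ := ramsey_links e (ex2 (e + 1)) (e + 1)
  refine ⟨e + 1 + N, fun F => ?_⟩
  by_contra hcon
  -- no homogeneous set of size e + 1 with an element at most e + 1
  have hno : ∀ H a, (∀ x, mem x H → x < e + 1 + N) → card H = e + 1 → mem a H → a ≤ e + 1 →
      ¬ Hom F e H := fun H a h1 h3 h4 h5 h2 => hcon (ph_of_hom h1 h2 h3 h4 h5)
  clear hcon
  set A := seg (e + 1) with hA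
  set n := e + 1 + N with hn
  have hcA : card A = e + 1 := card_seg _
  -- the block of numbers from e + 1 to n - 1
  set Y := sep n (fun x => e + 1 ≤ x) with hYdef
  have hY : ∀ x, mem x Y ↔ x < n ∧ e + 1 ≤ x := fun x => by
    rw [hYdef, mem_sep (by fun_prop)]
  have hcY : card Y = N := by
    have h1 : seg n = uni A Y := set_ext fun x => by
      rw [mem_uni, mem_seg, hY, hA, mem_seg]
      constructor
      · intro hx
        by_cases hxe : x < e + 1
        · exact Or.inl hxe
        · exact Or.inr ⟨hx, not_lt.mp hxe⟩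
      · rintro (hx | hx)
        · exact hx.trans_le ⟨N, rfl⟩
        · exact hx.1
    have h2 : card (uni A Y) = card A + card Y := by
      apply card_uni
      intro x hx hx'
      rw [hA, mem_seg] at hx
      rw [hY] at hx'
      exact absurd hx (not_lt.mpr hx'.2)
    rw [← h1, card_seg, hcA, hn] at h2
    exact (add_left_cancel h2).symm
  obtain ⟨K, hKY, hKc, hK⟩ := hN Y hcY.ge F
  have hKY' : ∀ x, mem x K → x < n ∧ e + 1 ≤ x := fun x hx => (hY x).mp (hKY x hx)
  have hAlt : ∀ x, mem x A → x < e + 1 := fun x hx => by rwa [hA, mem_seg] at hx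
  have hlink : ∀ m, Sub m A → ∀ j, card m + j = e → HomLink F m j K := by
    intro m hm j hj
    refine hK m (lt_ex2_of_bounded fun x hx => hAlt x (hm x hx)) j hj
  have hdisj : ∀ m X, Sub m A → Sub X K → card (uni m X) = card m + card X := by
    intro m X hm hX
    apply card_uni
    intro x hx hx'
    exact absurd (hAlt x (hm x hx)) (not_lt.mpr (hKY' x (hX x hx')).2)
  have hun : ∀ m X, Sub m A → Sub X K → ∀ x, mem x (uni m X) → x < n := by
    intro m X hm hX x hx
    rcases mem_uni.mp hx with hx | hx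
    · exact (hAlt x (hm x hx)).trans_le ⟨N, rfl⟩
    · exact (hKY' x (hX x hx)).1
  -- key step
  have step : ∀ (c : Prop) (j : M), j + 1 ≤ e →
      (∀ m X, Sub m A → Sub X K → card m = j → card m + card X = e → (mem (uni m X) F ↔ c)) →
      ∀ m X, Sub m A → Sub X K → card m = j + 1 → card m + card X = e →
        ¬ (mem (uni m X) F ↔ c) := by
    intro c j hje hlev m X hm hX hmj hmX hc
    -- extend X by one point of K
    have hy : ∃ y, mem y K ∧ ¬ mem y X := by
      by_contra hcon
      push Not at hcon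
      have h1 : card K ≤ card X := card_mono hcon
      rw [hKc] at h1
      have h2 : card X ≤ e := ⟨card m, by rw [add_comm]; exact hmX⟩
      exact absurd (h1.trans h2) (not_le.mpr ((lt_add_one_iff' _ _).mpr le_rfl))
    obtain ⟨y, hyK, hyX⟩ := hy
    set X1 := ins y X with hX1
    have hX1K : Sub X1 K := by
      intro x hx
      rw [hX1, mem_ins] at hx
      rcases hx with rfl | hx
      · exact hyK
      · exact hX x hx
    have hX1c : card X1 = card X + 1 := card_ins hyX
    have hHc : card (uni m X1) = e + 1 := by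
      rw [hdisj m X1 hm hX1K, hX1c, ← add_assoc, hmX]
    -- m is nonempty
    have hm0 : m ≠ 0 := by
      rintro rfl
      rw [card_zero] at hmj
      exact add_one_ne_zero' j hmj.symm
    obtain ⟨a, ha⟩ := exists_mem_of_ne hm0
    have hall : ∀ W, Sub W (uni m X1) → CardR W e → (mem W F ↔ c) := by
      intro W hW hWe
      have hWc : card W = e := (cardR_iff.mp hWe).symm
      obtain ⟨z, hz, rfl⟩ := exists_era hW (by rw [hWc, hHc])
      by_cases hzm : mem z m
      · have h1 : era z (uni m X1) = uni (era z m) X1 := by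
          have hzX : ¬ mem z X1 := fun h => absurd (hAlt z (hm z hzm))
            (not_lt.mpr (hKY' z (hX1K z h)).2)
          apply set_ext
          intro x
          rw [mem_era, mem_uni, mem_uni, mem_era]
          constructor
          · rintro ⟨h1, h2 | h2⟩
            · exact Or.inl ⟨h1, h2⟩
            · exact Or.inr h2
          · rintro (h | h)
            · exact ⟨h.1, Or.inl h.2⟩
            · exact ⟨fun e => hzX (e ▸ h), Or.inr h⟩
        rw [h1]
        have h2 := card_era hzm
        have h3 : card (era z m) = j := add_one_inj' (h2.trans hmj)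
        apply hlev _ _ (fun x hx => hm x (mem_era.mp hx).2) hX1K h3
        rw [h3, hX1c, ← hmX, hmj]
        ring
      · have hzX : mem z X1 := (mem_uni.mp hz).resolve_left hzm
        have h1 : era z (uni m X1) = uni m (era z X1) := by
          apply set_ext
          intro x
          rw [mem_era, mem_uni, mem_uni, mem_era]
          constructor
          · rintro ⟨h1, h2 | h2⟩
            · exact Or.inl h2
            · exact Or.inr ⟨h1, h2⟩
          · rintro (h | h)
            · exact ⟨fun e => hzm (e ▸ h), Or.inl h⟩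
            · exact ⟨h.1, Or.inr h.2⟩
        rw [h1]
        have h2 : card (era z X1) = card X := add_one_inj' ((card_era hzX).trans hX1c)
        have h3 : Sub (era z X1) K := fun x hx => hX1K x (mem_era.mp hx).2
        rw [← hc]
        rcases hlink m hm (card X) hmX with h | h
        · exact ⟨fun _ => h X hX (cardR_iff.mpr rfl), fun _ => h _ h3 (cardR_iff.mpr h2.symm)⟩
        · exact ⟨fun h' => (h _ h3 (cardR_iff.mpr h2.symm) h').elim,
            fun h' => (h X hX (cardR_iff.mpr rfl) h').elim⟩
    refine hno (uni m X1) a (hun m X1 hm hX1K) hHc (mem_uni.mpr (Or.inl ha))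
      (hAlt a (hm a ha)).le ?_
    by_cases hcc : c
    · exact Or.inl fun W h1 h2 => (hall W h1 h2).mpr hcc
    · exact Or.inr fun W h1 h2 h3 => hcc ((hall W h1 h2).mp h3)
  -- all levels are homogeneous
  have levels : ∀ j : M, j ≤ e →
      (∀ m X, Sub m A → Sub X K → card m = j → card m + card X = e → mem (uni m X) F) ∨
      (∀ m X, Sub m A → Sub X K → card m = j → card m + card X = e → ¬ mem (uni m X) F) := by
    refine induct (by fun_prop) ?_ ?_
    · intro _
      have h0 : Sub (0 : M) A := fun x hx => (not_mem_zero x hx).elim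
      rcases hlink 0 h0 e (by rw [card_zero, zero_add]) with h | h
      · left
        intro m X hm hX hm0 hmX
        rw [card_eq_zero] at hm0
        subst hm0
        rw [card_zero, zero_add] at hmX
        exact h X hX (cardR_iff.mpr hmX.symm)
      · right
        intro m X hm hX hm0 hmX
        rw [card_eq_zero] at hm0
        subst hm0
        rw [card_zero, zero_add] at hmX
        exact h X hX (cardR_iff.mpr hmX.symm)
    · intro j ih hje
      rcases ih (((lt_add_one_iff' _ _).mpr le_rfl).le.trans hje) with h | h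
      · right
        intro m X hm hX hmj hmX hmem
        refine step True j hje (fun m X h1 h2 h3 h4 => ?_) m X hm hX hmj hmX ?_
        · exact ⟨fun _ => trivial, fun _ => h m X h1 h2 h3 h4⟩
        · exact ⟨fun _ => trivial, fun _ => hmem⟩
      · left
        intro m X hm hX hmj hmX
        by_contra hmem
        refine step False j hje (fun m X h1 h2 h3 h4 => ?_) m X hm hX hmj hmX ?_
        · exact ⟨fun h' => h m X h1 h2 h3 h4 h', False.elim⟩
        · exact ⟨fun h' => hmem h', False.elim⟩
  -- hence A is homogeneous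
  have hz : Sub (0 : M) K := fun x hx => (not_mem_zero x hx).elim
  have hu0 : ∀ m : M, uni m 0 = m := fun m => set_ext fun x => by
    rw [mem_uni]
    exact ⟨fun h => h.resolve_right (not_mem_zero x), Or.inl⟩
  have hAhom : Hom F e A := by
    rcases levels e le_rfl with h | h
    · left
      intro X hX hXe
      have := h X 0 hX hz (cardR_iff.mp hXe).symm (by
        rw [card_zero, add_zero]; exact (cardR_iff.mp hXe).symm)
      rwa [hu0] at this
    · right
      intro X hX hXe
      have := h X 0 hX hz (cardR_iff.mp hXe).symm (by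
        rw [card_zero, add_zero]; exact (cardR_iff.mp hXe).symm)
      rwa [hu0] at this
  refine hno A 0 (fun x hx => (hAlt x hx).trans_le ⟨N, rfl⟩) hcA ?_ (zero_le'' _) hAhom
  rw [hA, mem_seg]
  exact (lt_add_one_iff' 0 e).mpr (zero_le'' e)

end Pool.Agent.W_MP_c01b7c_lc
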