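import Pool.Agent.W_MP_c01b7c_lc.Complete
import Pool.Agent.W_MP_c01b7c_lc.Ramsey
set_option linter.unusedSectionVars false

/-!
Peano arithmetic proves `∀ e ∃ n, n →_* (e + 1)^e_2`.
-/

namespace Pool.Agent.W_MP_c01b7c_lc.Peano

open Tm Fm

universe u

/-! ### The axioms are closed under substitution -/

theorem induction_subst (φ : Fm) (τ : ℕ → Tm) :
    (induction φ).subst τ = induction (φ.subst (lft τ)) := by
  unfold induction
  simp only [Fm.subst]
  rw [inst_subst]
  congr 2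
  congr 2
  change (φ.subst _).subst (lft τ) = (φ.subst (lft τ)).subst _
  rw [fm_subst_subst, fm_subst_subst]
  congr 1
  funext i
  cases i with
  | zero => rfl
  | succ i =>
    change (var (i + 1)).subst (lft τ) =
      (up (τ i)).subst (cons (succ (var 0)) fun i => var (i + 1))
    rw [up_subst_cons]
    rfl

theorem pa_subst : ∀ φ ∈ PA, ∀ τ, φ.subst τ ∈ PA := by
  intro φ hφ τ
  cases hφ with
  | succ_ne_zero => exact PA.succ_ne_zero
  | succ_inj => exact PA.succ_inj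
  | add_zero => exact PA.add_zero
  | add_succ => exact PA.add_succ
  | mul_zero => exact PA.mul_zero
  | mul_succ => exact PA.mul_succ
  | ind φ =>
    rw [induction_subst]
    exact PA.ind _

/-! ### Models of the axioms -/

section
variable {M : Type u} [Ops M]

/-- Interleaving of two assignments of context variables or parameters. -/
def mix {α : Type u} (ρ ρ' : ℕ → α) : ℕ → α := fun i => if i % 2 = 0 then ρ (i / 2) else ρ' (i / 2)

theorem mix_even {α : Type u} (ρ ρ' : ℕ → α) (i : ℕ) : mix ρ ρ' (2 * i) = ρ i := by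
  unfold mix
  rw [if_pos (by omega)]
  congr 1
  omega

theorem mix_odd {α : Type u} (ρ ρ' : ℕ → α) (i : ℕ) : mix ρ ρ' (2 * i + 1) = ρ' i := by
  unfold mix
  rw [if_neg (by omega)]
  congr 1
  omega

theorem DT.toTm {t : (ℕ → M) → M} (h : DT t) :
    ∃ (τ : Tm) (ρ : ℕ → ℕ ⊕ M), ∀ v : ℕ → M, eval (fun i => Sum.elim v id (ρ i)) τ = t v := by
  induction h with
  | var i => exact ⟨Tm.var i, fun i => Sum.inl i, fun v => rfl⟩
  | par c => exact ⟨Tm.var 0, fun _ => Sum.inr c, fun v => rfl⟩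
  | zero => exact ⟨Tm.zero, fun i => Sum.inl i, fun v => rfl⟩
  | succ _ ih =>
    obtain ⟨τ, ρ, h⟩ := ih
    exact ⟨Tm.succ τ, ρ, fun v => by simp only [eval, h]⟩
  | add _ _ ih1 ih2 =>
    obtain ⟨τ, ρ, h⟩ := ih1
    obtain ⟨τ', ρ', h'⟩ := ih2
    refine ⟨Tm.add (τ.subst fun i => Tm.var (2 * i)) (τ'.subst fun i => Tm.var (2 * i + 1)),
      mix ρ ρ', fun v => ?_⟩
    simp only [eval, eval_subst, mix_even, mix_odd, h, h']
  | mul _ _ ih1 ih2 =>
    obtain ⟨τ, ρ, h⟩ := ih1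
    obtain ⟨τ', ρ', h'⟩ := ih2
    refine ⟨Tm.mul (τ.subst fun i => Tm.var (2 * i)) (τ'.subst fun i => Tm.var (2 * i + 1)),
      mix ρ ρ', fun v => ?_⟩
    simp only [eval, eval_subst, mix_even, mix_odd, h, h']

/-- The substitution isolating the context variable `0`. -/
def pushT (ρ : ℕ → ℕ ⊕ M) (i : ℕ) : Tm :=
  match ρ i with
  | Sum.inl 0 => Tm.var 0
  | _ => Tm.var (i + 1)

/-- The remaining assignment. -/
def pushR (ρ : ℕ → ℕ ⊕ M) (i : ℕ) : ℕ ⊕ M :=
  match ρ i with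
  | Sum.inl 0 => Sum.inl 0
  | Sum.inl (k + 1) => Sum.inl k
  | Sum.inr m => Sum.inr m

theorem push_eval (ρ : ℕ → ℕ ⊕ M) (v : ℕ → M) (x : M) :
    (fun i => eval (scons x fun j => Sum.elim v id (pushR ρ j)) (pushT ρ i)) =
      fun i => Sum.elim (scons x v) id (ρ i) := by
  funext i
  unfold pushT
  rcases h : ρ i with k | m
  · cases k with
    | zero => rfl
    | succ k => simp [eval, scons, pushR, h]
  · simp [eval, scons, pushR, h]

theorem push_sat (φ : Fm) (ρ : ℕ → ℕ ⊕ M) (v : ℕ → M) (x : M) :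
    Sat (scons x fun j => Sum.elim v id (pushR ρ j)) (φ.subst (pushT ρ)) ↔
      Sat (fun i => Sum.elim (scons x v) id (ρ i)) φ := by
  rw [sat_subst, push_eval]

theorem DP.toFm {P : (ℕ → M) → Prop} (h : DP P) :
    ∃ (φ : Fm) (ρ : ℕ → ℕ ⊕ M), ∀ v : ℕ → M, Sat (fun i => Sum.elim v id (ρ i)) φ ↔ P v := by
  induction h with
  | eq hs ht =>
    obtain ⟨τ, ρ, h⟩ := DT.toTm hs
    obtain ⟨τ', ρ', h'⟩ := DT.toTm ht
    refine ⟨Fm.eq (τ.subst fun i => Tm.var (2 * i)) (τ'.subst fun i => Tm.var (2 * i + 1)),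
      mix ρ ρ', fun v => ?_⟩
    simp only [Sat, eval, eval_subst, mix_even, mix_odd, h, h']
  | fls => exact ⟨Fm.fls, fun i => Sum.inl i, fun v => Iff.rfl⟩
  | imp _ _ ih1 ih2 =>
    obtain ⟨φ, ρ, h⟩ := ih1
    obtain ⟨φ', ρ', h'⟩ := ih2
    refine ⟨Fm.imp (φ.subst fun i => Tm.var (2 * i)) (φ'.subst fun i => Tm.var (2 * i + 1)),
      mix ρ ρ', fun v => ?_⟩
    simp only [Sat, eval, sat_subst, mix_even, mix_odd, h, h']
  | all _ ih =>
    obtain ⟨φ, ρ, h⟩ := ih
    refine ⟨Fm.all (φ.subst (pushT ρ)), pushR ρ, fun v => ?_⟩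
    simp only [Sat, push_sat, h]

/-- Models of the axioms are models of Peano arithmetic. -/
theorem pamodel (h : ∀ φ ∈ PA, ∀ v : ℕ → M, Sat v φ) : PAModel M where
  succ_ne_zero x := h _ PA.succ_ne_zero (fun _ => Ops.zero) x
  succ_inj x y := h _ PA.succ_inj (fun _ => Ops.zero) x y
  add_zero x := h _ PA.add_zero (fun _ => Ops.zero) x
  add_succ x y := h _ PA.add_succ (fun _ => Ops.zero) x y
  mul_zero x := h _ PA.mul_zero (fun _ => Ops.zero) x
  mul_succ x y := h _ PA.mul_succ (fun _ => Ops.zero) x y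
  ind P hP v h0 hS x := by
    obtain ⟨φ, ρ, hφ⟩ := DP.toFm hP
    have key : ∀ x : M, Sat (scons x fun j => Sum.elim v id (pushR ρ j)) (φ.subst (pushT ρ)) ↔
        P (scons x v) := fun x => by rw [push_sat, hφ]
    have hax := h _ (PA.ind (φ.subst (pushT ρ))) (fun j => Sum.elim v id (pushR ρ j))
    simp only [induction, Sat, sat_inst] at hax
    rw [← key]
    refine hax ?_ ?_ x
    · exact (key _).mpr h0
    · intro y hy
      rw [sat_subst]
      have e1 : (fun i => eval (scons y fun j => Sum.elim v id (pushR ρ j))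
          (cons (Tm.succ (Tm.var 0)) (fun i => Tm.var (i + 1)) i)) =
          scons (Ops.succ y) fun j => Sum.elim v id (pushR ρ j) := by
        funext i
        cases i <;> rfl
      rw [e1]
      exact (key _).mpr (hS y ((key y).mp hy))

end

/-! ### Meaning of the formulas -/

section
variable {M : Type u} [Ops M]

theorem sat_neg (v : ℕ → M) (φ : Fm) : Sat v (neg φ) ↔ ¬ Sat v φ := Iff.rfl

theorem sat_ex (v : ℕ → M) (φ : Fm) : Sat v (ex φ) ↔ ∃ x, Sat (scons x v) φ := by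
  simp only [ex, Sat, neg]
  constructor
  · intro h
    by_contra hcon
    exact h fun x hx => hcon ⟨x, hx⟩
  · rintro ⟨x, hx⟩ h
    exact h x hx

theorem sat_conj (v : ℕ → M) (φ ψ : Fm) : Sat v (conj φ ψ) ↔ Sat v φ ∧ Sat v ψ := by
  simp only [conj, Sat, neg]
  tauto

theorem sat_disj (v : ℕ → M) (φ ψ : Fm) : Sat v (disj φ ψ) ↔ Sat v φ ∨ Sat v ψ := by
  simp only [disj, Sat, neg]
  tauto

theorem sat_all (v : ℕ → M) (φ : Fm) : Sat v (all φ) ↔ ∀ x, Sat (scons x v) φ := Iff.rfl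
theorem sat_imp (v : ℕ → M) (φ ψ : Fm) : Sat v (imp φ ψ) ↔ (Sat v φ → Sat v ψ) := Iff.rfl
theorem sat_eq (v : ℕ → M) (s t : Tm) : Sat v (eq s t) ↔ eval v s = eval v t := Iff.rfl

variable [PAModel M]

theorem ev_zero (v : ℕ → M) : eval v zero = 0 := rfl
theorem ev_var (v : ℕ → M) (i : ℕ) : eval v (var i) = v i := rfl
theorem ev_succ (v : ℕ → M) (t : Tm) : eval v (succ t) = eval v t + 1 := succ_def _
theorem ev_add (v : ℕ → M) (s t : Tm) : eval v (add s t) = eval v s + eval v t := rfl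
theorem ev_mul (v : ℕ → M) (s t : Tm) : eval v (mul s t) = eval v s * eval v t := rfl

theorem sc0 (v : ℕ → M) (x : M) : scons x v 0 = x := rfl
theorem sc1 (v : ℕ → M) (x y : M) : scons y (scons x v) 1 = x := rfl
theorem sc2 (v : ℕ → M) (x y z : M) : scons z (scons y (scons x v)) 2 = x := rfl
theorem sc3 (v : ℕ → M) (x y z w : M) : scons w (scons z (scons y (scons x v))) 3 = x := rfl
theorem sc4 (v : ℕ → M) (x y z w u : M) :
    scons u (scons w (scons z (scons y (scons x v)))) 4 = x := rfl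

theorem sat_lt (v : ℕ → M) (s t : Tm) : Sat v (fLt s t) ↔ eval v s < eval v t := by
  simp only [fLt, sat_ex, sat_eq, ev_add, ev_succ, ev_var, eval_up, sc0]
  rw [lt_def']
  exact exists_congr fun z => by rw [add_assoc, add_comm 1 z]

theorem sat_le (v : ℕ → M) (s t : Tm) : Sat v (fLe s t) ↔ eval v s ≤ eval v t := by
  simp only [fLe, sat_ex, sat_eq, ev_add, ev_var, eval_up, sc0]
  rw [le_def']

theorem sat_beta (v : ℕ → M) (c d i y : Tm) : Sat v (fBeta c d i y) ↔
    Beta (eval v c) (eval v d) (eval v i) (eval v y) := by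
  simp only [fBeta, sat_conj, sat_lt, sat_ex, sat_eq, ev_add, ev_mul, ev_succ, ev_var, eval_up,
    sc0, Beta]

theorem sat_exp (v : ℕ → M) (x y : Tm) : Sat v (fExp x y) ↔ ExpR (eval v x) (eval v y) := by
  simp only [fExp, sat_conj, sat_lt, sat_ex, sat_all, sat_imp, sat_beta, ev_add, ev_zero,
    ev_succ, ev_var, eval_up, sc0, sc1, sc2, sc3, ExpR, zero_add]

theorem sat_mem (v : ℕ → M) (x s : Tm) : Sat v (fMem x s) ↔ mem (eval v x) (eval v s) := by
  simp only [fMem, sat_conj, sat_lt, sat_ex, sat_eq, sat_exp, ev_add, ev_mul,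
    ev_succ, ev_var, eval_up, sc0, sc1, sc2, mem, expR_iff, exists_eq_left]

theorem sat_sub (v : ℕ → M) (s t : Tm) : Sat v (fSub s t) ↔ Sub (eval v s) (eval v t) := by
  simp only [fSub, sat_all, sat_imp, sat_mem, ev_var, eval_up, sc0, Sub]

theorem sat_card (v : ℕ → M) (s k : Tm) : Sat v (fCard s k) ↔ CardR (eval v s) (eval v k) := by
  simp only [fCard, sat_conj, sat_lt, sat_ex, sat_all, sat_imp, sat_eq, sat_beta, sat_mem, ev_var,
    eval_up, sc0, sc1, sc2, sc3, sc4, CardR]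

theorem sat_hom (v : ℕ → M) (F e H : Tm) : Sat v (fHom F e H) ↔
    Hom (eval v F) (eval v e) (eval v H) := by
  simp only [fHom, sat_disj, sat_all, sat_imp, sat_neg, sat_sub, sat_card, sat_mem, ev_var,
    eval_up, sc0, Hom]

theorem sat_ph (v : ℕ → M) (e n : Tm) : Sat v (fPH e n) ↔ PH (eval v e) (eval v n) := by
  simp only [fPH, sat_conj, sat_lt, sat_le, sat_ex, sat_all, sat_imp, sat_hom, sat_card, sat_mem,
    ev_succ, ev_var, eval_up, sc0, sc1, sc2, sc3, PH]

end

/-- **Peano arithmetic proves `∀ e ∃ n, n →_* (e + 1)^e_2`.** -/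
theorem pa_proves_ph : Proves PA (all (ex (fPH (var 1) (var 0)))) := by
  apply completeness pa_subst
  intro M _ hM v
  have : PAModel M := pamodel hM
  simp only [sat_all, sat_ex, sat_ph, ev_var, sc0, sc1]
  exact fun e => exists_ph e

end Pool.Agent.W_MP_c01b7c_lc.Peano
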