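import Pool.Agent.W_MP_c01b7c_lc.Exp
set_option linter.unusedSectionVars false

/-!
Finite sets in models of Peano arithmetic: operations and cardinality.
-/

namespace Pool.Agent.W_MP_c01b7c_lc

universe u v w

variable {M : Type u} [Ops M] [PAModel M] {X : Type v} [Obj M X]

open Classical in
/-- The set of all `x < b` with `P x` (meaningful for definable `P`). -/
noncomputable def sep (b : M) (P : M → Prop) : M :=
  if h : ∃ s, ∀ x, mem x s ↔ x < b ∧ P x then Classical.choose h else 0

theorem mem_sep {b : M} {P : M → Prop} (hP : DefMap M P) (x : M) :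
    mem x (sep b P) ↔ x < b ∧ P x := by
  obtain ⟨s, -, hs⟩ := comprehension hP b
  have h : ∃ s, ∀ x, mem x s ↔ x < b ∧ P x := ⟨s, hs⟩
  unfold sep
  rw [dif_pos h]
  exact Classical.choose_spec h x

@[fun_prop] theorem DefMap.sep_ {f : X → M} {Q : X → M → Prop} (hf : DefMap M f)
    (hQ : DefMap M (fun p : X × M => Q p.1 p.2)) :
    DefMap M (fun x => sep (f x) (fun y => Q x y)) := by
  apply DefMap.of_graph
  have h1 : DefMap M (fun q : (X × M) × M => Q q.1.1 q.2) :=
    DefMap.comp (f := fun p : X × M => Q p.1 p.2) (g := fun q : (X × M) × M => (q.1.1, q.2)) hQ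
      (by fun_prop)
  have h2 : DefMap M (fun p : X × M => ∀ x, mem x p.2 ↔ x < f p.1 ∧ Q p.1 x) := by
    fun_prop
  refine h2.congr ?_
  rintro ⟨x, s⟩
  have hQx : DefMap M (fun y => Q x y) :=
    DefMap.comp (f := fun p : X × M => Q p.1 p.2) (g := fun y => (x, y)) hQ (by fun_prop)
  constructor
  · intro h
    apply set_ext
    intro y
    rw [mem_sep hQx]
    exact h y
  · intro h y
    change s = _ at h
    rw [h]
    exact mem_sep hQx y

/-- Insertion. -/
noncomputable def ins (a s : M) : M := sep (a + s + 1) (fun x => x = a ∨ mem x s)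

/-- Removal. -/
noncomputable def era (a s : M) : M := sep s (fun x => x ≠ a ∧ mem x s)

/-- Union. -/
noncomputable def uni (s t : M) : M := sep (s + t) (fun x => mem x s ∨ mem x t)

/-- The initial segment `{0, ..., n - 1}`. -/
noncomputable def seg (n : M) : M := sep n (fun _ => True)

@[fun_prop] theorem DefMap.ins_ {f g : X → M} (hf : DefMap M f) (hg : DefMap M g) :
    DefMap M (fun x => ins (f x) (g x)) := by
  unfold ins; fun_prop

@[fun_prop] theorem DefMap.era_ {f g : X → M} (hf : DefMap M f) (hg : DefMap M g) :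
    DefMap M (fun x => era (f x) (g x)) := by
  unfold era; fun_prop

@[fun_prop] theorem DefMap.uni_ {f g : X → M} (hf : DefMap M f) (hg : DefMap M g) :
    DefMap M (fun x => uni (f x) (g x)) := by
  unfold uni; fun_prop

@[fun_prop] theorem DefMap.seg_ {f : X → M} (hf : DefMap M f) :
    DefMap M (fun x => seg (f x)) := by
  unfold seg; fun_prop

theorem mem_ins {a s x : M} : mem x (ins a s) ↔ x = a ∨ mem x s := by
  unfold ins
  rw [mem_sep (by fun_prop)]
  constructor
  · exact fun h => h.2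
  · intro h
    refine ⟨?_, h⟩
    rw [lt_add_one_iff']
    rcases h with rfl | h
    · exact ⟨s, rfl⟩
    · exact (mem_lt h).le.trans ⟨a, by ring⟩

theorem mem_era {a s x : M} : mem x (era a s) ↔ x ≠ a ∧ mem x s := by
  unfold era
  rw [mem_sep (by fun_prop)]
  exact ⟨fun h => h.2, fun h => ⟨mem_lt h.2, h⟩⟩

theorem mem_uni {s t x : M} : mem x (uni s t) ↔ mem x s ∨ mem x t := by
  unfold uni
  rw [mem_sep (by fun_prop)]
  constructor
  · exact fun h => h.2
  · intro h
    refine ⟨?_, h⟩
    rcases h with h | h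
    · exact (mem_lt h).trans_le ⟨t, rfl⟩
    · exact (mem_lt h).trans_le ⟨s, by ring⟩

theorem mem_seg {n x : M} : mem x (seg n) ↔ x < n := by
  unfold seg
  rw [mem_sep (by fun_prop)]
  simp

/-- Separation inside a set. -/
theorem mem_sep_sub {s : M} {P : M → Prop} (hP : DefMap M P) (x : M) :
    mem x (sep s (fun x => mem x s ∧ P x)) ↔ mem x s ∧ P x := by
  rw [mem_sep (by fun_prop)]
  exact ⟨fun h => h.2, fun h => ⟨mem_lt h.1, h⟩⟩

/-- Inclusion. -/
def Sub (s t : M) : Prop := ∀ x, mem x s → mem x t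

@[fun_prop] theorem DefMap.sub_ {f g : X → M} (hf : DefMap M f) (hg : DefMap M g) :
    DefMap M (fun x => Sub (f x) (g x)) := by
  unfold Sub; fun_prop

theorem Sub.refl' (s : M) : Sub s s := fun _ h => h
theorem Sub.trans' {s t r : M} (h1 : Sub s t) (h2 : Sub t r) : Sub s r := fun x h => h2 x (h1 x h)
theorem Sub.antisymm' {s t : M} (h1 : Sub s t) (h2 : Sub t s) : s = t :=
  set_ext fun x => ⟨h1 x, h2 x⟩

theorem eq_zero_iff {s : M} : s = 0 ↔ ∀ x, ¬ mem x s := by
  constructor
  · rintro rfl x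
    exact not_mem_zero x
  · intro h
    exact set_ext fun x => ⟨fun hx => (h x hx).elim, fun hx => (not_mem_zero x hx).elim⟩

theorem exists_mem_of_ne {s : M} (h : s ≠ 0) : ∃ x, mem x s := by
  by_contra hcon
  push Not at hcon
  exact h (eq_zero_iff.mpr hcon)

theorem ins_era {a s : M} (h : mem a s) : ins a (era a s) = s := by
  apply set_ext
  intro x
  rw [mem_ins, mem_era]
  constructor
  · rintro (rfl | h')
    · exact h
    · exact h'.2
  · intro hx
    by_cases hxa : x = a
    · exact Or.inl hxa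
    · exact Or.inr ⟨hxa, hx⟩

theorem era_ins {a s : M} (h : ¬ mem a s) : era a (ins a s) = s := by
  apply set_ext
  intro x
  rw [mem_era, mem_ins]
  constructor
  · rintro ⟨h1, h2 | h2⟩
    · exact (h1 h2).elim
    · exact h2
  · intro hx
    exact ⟨fun e => h (e ▸ hx), Or.inr hx⟩

/-- Induction over finite sets. -/
theorem set_induct {P : M → Prop} (hP : DefMap M P) (h0 : P 0)
    (hS : ∀ a s, ¬ mem a s → P s → P (ins a s)) (s : M) : P s := by
  refine strong_induct hP ?_ s
  intro s ih
  by_cases hs : s = 0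
  · rw [hs]; exact h0
  · obtain ⟨n, s', rfl, hs'⟩ := top_decomp hs
    have h1 : s' + ex2 n = ins n s' := set_ext fun x => by rw [mem_add_top hs', mem_ins]
    rw [h1]
    exact hS n s' (not_mem_of_lt hs') (ih s' (lt_add_of_pos_right _ (ex2_pos n)))

/-! ### Cardinality -/

/-- `i ↦ β(c, d, i)` is a bijection from `{0, ..., k - 1}` onto the set `s`. -/
def CardR (s k : M) : Prop :=
  ∃ c d, (∀ i, i < k → ∀ x, Beta c d i x → mem x s) ∧
    (∀ x, mem x s → ∃ i, i < k ∧ Beta c d i x) ∧
    (∀ i, i < k → ∀ j, j < k → ∀ x, Beta c d i x → Beta c d j x → i = j)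

@[fun_prop] theorem DefMap.cardR {f g : X → M} (hf : DefMap M f) (hg : DefMap M g) :
    DefMap M (fun x => CardR (f x) (g x)) := by
  unfold CardR; fun_prop

theorem cardR_of_fun {F : M → M} (hF : DefMap M F) {s k : M} (h1 : ∀ i, i < k → mem (F i) s)
    (h2 : ∀ x, mem x s → ∃ i, i < k ∧ F i = x)
    (h3 : ∀ i, i < k → ∀ j, j < k → F i = F j → i = j) : CardR s k := by
  obtain ⟨c, d, h⟩ := beta_seq hF k
  refine ⟨c, d, ?_, ?_, ?_⟩
  · intro i hi x hx
    rw [beta_unique hx (h i hi)]
    exact h1 i hi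
  · intro x hx
    obtain ⟨i, hi, rfl⟩ := h2 x hx
    exact ⟨i, hi, h i hi⟩
  · intro i hi j hj x hx hx'
    apply h3 i hi j hj
    rw [← beta_unique hx (h i hi), ← beta_unique hx' (h j hj)]

theorem cardR_fun {s k : M} (h : CardR s k) : ∃ F : M → M, DefMap M F ∧
    (∀ i, i < k → mem (F i) s) ∧ (∀ x, mem x s → ∃ i, i < k ∧ F i = x) ∧
    (∀ i, i < k → ∀ j, j < k → F i = F j → i = j) := by
  obtain ⟨c, d, h1, h2, h3⟩ := h
  obtain ⟨F, hF, hF2⟩ := def_choice (R := fun i z => Beta c d i z) (by fun_prop)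
    (fun i => beta_exists c d i)
  refine ⟨F, hF, ?_, ?_, ?_⟩
  · intro i hi
    exact h1 i hi _ (hF2 i)
  · intro x hx
    obtain ⟨i, hi, hix⟩ := h2 x hx
    exact ⟨i, hi, beta_unique (hF2 i) hix⟩
  · intro i hi j hj hij
    exact h3 i hi j hj (F i) (hF2 i) (hij ▸ hF2 j)

theorem cardR_zero_iff {s : M} : CardR s 0 ↔ s = 0 := by
  constructor
  · rintro ⟨c, d, -, h2, -⟩
    rw [eq_zero_iff]
    intro x hx
    obtain ⟨i, hi, -⟩ := h2 x hx
    exact not_lt_zero'' i hi
  · rintro rfl
    exact ⟨0, 0, fun i hi => (not_lt_zero'' i hi).elim, fun x hx => (not_mem_zero x hx).elim,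
      fun i hi => (not_lt_zero'' i hi).elim⟩

theorem cardR_zero_right {k : M} (h : CardR 0 k) : k = 0 := by
  by_contra hk
  obtain ⟨c, d, h1, -, -⟩ := h
  obtain ⟨x, hx⟩ := beta_exists c d (0 : M)
  exact not_mem_zero x (h1 0 ((pos_iff k).mpr hk) x hx)

theorem cardR_ins {a s k : M} (ha : ¬ mem a s) (h : CardR s k) : CardR (ins a s) (k + 1) := by
  obtain ⟨F, hF, h1, h2, h3⟩ := cardR_fun h
  obtain ⟨G, hG, hG2⟩ := def_choice
    (R := fun i z => (i < k → z = F i) ∧ (¬ i < k → z = a)) (by fun_prop) (by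
      intro i
      by_cases hi : i < k
      · exact ⟨F i, fun _ => rfl, fun h => (h hi).elim⟩
      · exact ⟨a, fun h => (hi h).elim, fun _ => rfl⟩)
  have hlt : ∀ i, i < k → G i = F i := fun i hi => (hG2 i).1 hi
  have hk : G k = a := (hG2 k).2 (lt_irrefl k)
  refine cardR_of_fun hG ?_ ?_ ?_
  · intro i hi
    rw [lt_add_one_iff'] at hi
    rw [mem_ins]
    rcases hi.lt_or_eq with hi | rfl
    · right; rw [hlt i hi]; exact h1 i hi
    · left; exact hk
  · intro x hx
    rw [mem_ins] at hx
    rcases hx with rfl | hx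
    · exact ⟨k, (lt_add_one_iff' k k).mpr le_rfl, hk⟩
    · obtain ⟨i, hi, hix⟩ := h2 x hx
      exact ⟨i, (lt_add_one_iff' _ _).mpr hi.le, by rw [hlt i hi, hix]⟩
  · intro i hi j hj hij
    rw [lt_add_one_iff'] at hi hj
    rcases hi.lt_or_eq with hi | rfl <;> rcases hj.lt_or_eq with hj | rfl
    · rw [hlt i hi, hlt j hj] at hij
      exact h3 i hi j hj hij
    · rw [hlt i hi, hk] at hij
      exact (ha (hij ▸ h1 i hi)).elim
    · rw [hlt j hj, hk] at hij
      exact (ha (hij ▸ h1 j hj)).elim
    · rfl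

theorem cardR_era {a s k : M} (ha : mem a s) (h : CardR s k) :
    ∃ k', k = k' + 1 ∧ CardR (era a s) k' := by
  obtain ⟨F, hF, h1, h2, h3⟩ := cardR_fun h
  obtain ⟨j, hj, hja⟩ := h2 a ha
  rcases zero_or_succ k with rfl | ⟨k', rfl⟩
  · exact (not_lt_zero'' j hj).elim
  refine ⟨k', rfl, ?_⟩
  have hk' : k' < k' + 1 := (lt_add_one_iff' _ _).mpr le_rfl
  obtain ⟨G, hG, hG2⟩ := def_choice
    (R := fun i z => (i ≠ j → z = F i) ∧ (i = j → z = F k')) (by fun_prop) (by
      intro i
      by_cases hi : i = j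
      · exact ⟨F k', fun h => (h hi).elim, fun _ => rfl⟩
      · exact ⟨F i, fun _ => rfl, fun h => (hi h).elim⟩)
  have hne : ∀ i, i ≠ j → G i = F i := fun i hi => (hG2 i).1 hi
  have hjj : G j = F k' := (hG2 j).2 rfl
  have hlt : ∀ i, i < k' → i < k' + 1 := fun i hi => hi.trans hk'
  refine cardR_of_fun hG ?_ ?_ ?_
  · intro i hi
    rw [mem_era]
    by_cases hij : i = j
    · rw [hij, hjj]
      refine ⟨?_, h1 k' hk'⟩
      rw [← hja]
      intro he
      have := h3 k' hk' j hj he
      rw [hij, ← this] at hi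
      exact lt_irrefl _ hi
    · rw [hne i hij]
      refine ⟨?_, h1 i (hlt i hi)⟩
      rw [← hja]
      intro he
      exact hij (h3 i (hlt i hi) j hj he)
  · intro x hx
    rw [mem_era] at hx
    obtain ⟨i, hi, hix⟩ := h2 x hx.2
    have hij : i ≠ j := by
      rintro rfl
      exact hx.1 (hix.symm.trans hja)
    rw [lt_add_one_iff'] at hi
    rcases hi.lt_or_eq with hi | rfl
    · exact ⟨i, hi, by rw [hne i hij, hix]⟩
    · have hji : j < i := by
        rw [lt_add_one_iff'] at hj
        exact lt_of_le_of_ne hj (Ne.symm hij)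
      exact ⟨j, hji, by rw [hjj, hix]⟩
  · intro i hi i' hi' he
    by_cases hij : i = j <;> by_cases hij' : i' = j
    · rw [hij, hij']
    · rw [hij, hjj, hne i' hij'] at he
      have := h3 k' hk' i' (hlt i' hi') he
      rw [← this] at hi'
      exact (lt_irrefl _ hi').elim
    · rw [hij', hjj, hne i hij] at he
      have := h3 i (hlt i hi) k' hk' he
      rw [this] at hi
      exact (lt_irrefl _ hi).elim
    · rw [hne i hij, hne i' hij'] at he
      exact h3 i (hlt i hi) i' (hlt i' hi') he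

theorem cardR_unique : ∀ {s k k' : M}, CardR s k → CardR s k' → k = k' := by
  intro s
  refine set_induct (P := fun s : M => ∀ {k k' : M}, CardR s k → CardR s k' → k = k')
    (by fun_prop) ?_ ?_ s
  · intro k k' h h'
    rw [cardR_zero_right h, cardR_zero_right h']
  · intro a s ha ih k k' h h'
    have hmem : mem a (ins a s) := mem_ins.mpr (Or.inl rfl)
    obtain ⟨l, rfl, hl⟩ := cardR_era hmem h
    obtain ⟨l', rfl, hl'⟩ := cardR_era hmem h'
    rw [era_ins ha] at hl hl'
    rw [ih hl hl']

theorem cardR_exists (s : M) : ∃ k, CardR s k := by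
  refine set_induct (P := fun s : M => ∃ k, CardR s k) (by fun_prop)
    ⟨0, cardR_zero_iff.mpr rfl⟩ ?_ s
  rintro a s ha ⟨k, hk⟩
  exact ⟨k + 1, cardR_ins ha hk⟩

/-- Cardinality. -/
noncomputable def card (s : M) : M := Classical.choose (cardR_exists s)

theorem cardR_iff {s k : M} : CardR s k ↔ k = card s := by
  have h := Classical.choose_spec (cardR_exists s)
  constructor
  · intro h'
    exact cardR_unique h' h
  · rintro rfl
    exact h

@[fun_prop] theorem DefMap.card_ {f : X → M} (hf : DefMap M f) :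
    DefMap M (fun x => card (f x)) := by
  apply DefMap.of_graph
  have : DefMap M (fun p : X × M => CardR (f p.1) p.2) := by fun_prop
  exact this.congr fun p => cardR_iff

theorem card_zero : card (0 : M) = 0 := (cardR_iff.mp (cardR_zero_iff.mpr rfl)).symm

theorem card_eq_zero {s : M} : card s = 0 ↔ s = 0 :=
  ⟨fun h => cardR_zero_iff.mp (cardR_iff.mpr h.symm),
    fun h => (cardR_iff.mp (cardR_zero_iff.mpr h)).symm⟩

theorem card_ins {a s : M} (h : ¬ mem a s) : card (ins a s) = card s + 1 :=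
  (cardR_iff.mp (cardR_ins h (cardR_iff.mpr rfl))).symm

theorem card_era {a s : M} (h : mem a s) : card (era a s) + 1 = card s := by
  have h1 : ¬ mem a (era a s) := fun h' => (mem_era.mp h').1 rfl
  rw [← card_ins h1, ins_era h]

theorem card_mono : ∀ {s t : M}, Sub s t → card s ≤ card t := by
  intro s
  refine set_induct (P := fun s : M => ∀ {t : M}, Sub s t → card s ≤ card t)
    (by fun_prop) ?_ ?_ s
  · intro t _
    rw [card_zero]
    exact zero_le'' _
  · intro a s ha ih t hst
    have hat : mem a t := hst a (mem_ins.mpr (Or.inl rfl))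
    rw [card_ins ha, ← card_era hat]
    have : Sub s (era a t) := by
      intro x hx
      rw [mem_era]
      exact ⟨fun e => ha (e ▸ hx), hst x (mem_ins.mpr (Or.inr hx))⟩
    exact add_le_add_left (ih this) 1

theorem exists_subset_card : ∀ {s k : M}, k ≤ card s → ∃ t, Sub t s ∧ card t = k := by
  intro s
  refine set_induct (P := fun s : M => ∀ {k : M}, k ≤ card s → ∃ t, Sub t s ∧ card t = k)
    (by fun_prop) ?_ ?_ s
  · intro k hk
    rw [card_zero] at hk
    exact ⟨0, Sub.refl' 0, by rw [card_zero, le_antisymm hk (zero_le'' k)]⟩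
  · intro a s ha ih k hk
    rw [card_ins ha] at hk
    rcases hk.lt_or_eq with hk | rfl
    · obtain ⟨t, ht, htk⟩ := ih ((lt_add_one_iff' _ _).mp hk)
      exact ⟨t, fun x hx => mem_ins.mpr (Or.inr (ht x hx)), htk⟩
    · exact ⟨ins a s, Sub.refl' _, card_ins ha⟩

theorem card_uni {s t : M} (h : ∀ x, mem x s → ¬ mem x t) : card (uni s t) = card s + card t := by
  revert h
  refine set_induct (P := fun t : M => (∀ x, mem x s → ¬ mem x t) →
    card (uni s t) = card s + card t) (by fun_prop) ?_ ?_ t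
  · intro _
    have : uni s 0 = s := set_ext fun x => by
      rw [mem_uni]
      exact ⟨fun h => h.resolve_right (not_mem_zero x), Or.inl⟩
    rw [this, card_zero, add_zero]
  · intro a t ha ih h
    have h1 : uni s (ins a t) = ins a (uni s t) := set_ext fun x => by
      rw [mem_uni, mem_ins, mem_ins, mem_uni]; tauto
    have h2 : ¬ mem a (uni s t) := by
      rw [mem_uni]
      rintro (h3 | h3)
      · exact h a h3 (mem_ins.mpr (Or.inl rfl))
      · exact ha h3
    rw [h1, card_ins h2, card_ins ha, ih, add_assoc]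
    intro x hx hxt
    exact h x hx (mem_ins.mpr (Or.inr hxt))

theorem card_seg (n : M) : card (seg n) = n := by
  refine induct (P := fun n : M => card (seg n) = n) (by fun_prop) ?_ ?_ n
  · rw [card_eq_zero, eq_zero_iff]
    intro x hx
    exact not_lt_zero'' x (mem_seg.mp hx)
  · intro n ih
    have h1 : seg (n + 1) = ins n (seg n) := set_ext fun x => by
      rw [mem_seg, mem_ins, mem_seg, lt_add_one_iff', le_iff_lt_or_eq]; tauto
    rw [h1, card_ins, ih]
    rw [mem_seg]
    exact lt_irrefl n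

theorem eq_of_sub_card : ∀ {s t : M}, Sub s t → card t ≤ card s → s = t := by
  intro s t hst hc
  apply Sub.antisymm' hst
  intro x hx
  by_contra hxs
  have h1 : Sub s (era x t) := fun y hy => mem_era.mpr ⟨fun e => hxs (e ▸ hy), hst y hy⟩
  have h2 := card_mono h1
  have h3 := card_era hx
  rw [← h3] at hc
  exact absurd (hc.trans h2) (not_le.mpr ((lt_add_one_iff' _ _).mpr le_rfl))

/-- The least element. -/
theorem exists_min {s : M} (h : s ≠ 0) : ∃ m, mem m s ∧ ∀ x, mem x s → m ≤ x := by
  obtain ⟨m, hm, hmin⟩ := least (P := fun x => mem x s) (by fun_prop) (exists_mem_of_ne h)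
  exact ⟨m, hm, fun x hx => not_lt.mp fun hlt => hmin x hlt hx⟩

end Pool.Agent.W_MP_c01b7c_lc
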